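import Pool.Agent.L7h49.TS.Thin

/-!
# Test sets of null vectors
-/

set_option autoImplicit false

open Set Filter Topology MeasureTheory
open scoped Manifold ContDiff Bundle ENNReal NNReal

noncomputable section

namespace Pool.Agent.L7h49.TS

open Pool.Agent.Y501.SY
open Pool.Agent.N13.TL
open Pool.Agent.R772 (ExactF)

variable {d : ℕ} {X : Type} [TopologicalSpace X] [ChartedSpace (E d) X]

/-- the unit null vectors -/
def UN (𝒞 : Set (Form d X 2)) (J : End d X) (τ : Form d X 2) :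
    Set (TangentBundle (𝓡 d) X) :=
  {p | qq τ J p = 1 ∧ NullV 𝒞 J τ p.proj p.snd}

/-- the forms of `𝒞` which are nonnegative on the null vectors up to exact forms -/
def NN (𝒞 : Set (Form d X 2)) (J : End d X) (τ : Form d X 2) : Set (Form d X 2) :=
  {σ | σ ∈ 𝒞 ∧ NefOn J (UN 𝒞 J τ) σ}

/-- test sets -/
structure TestD [IsManifold (𝓡 d) ∞ X] (𝒞 : Set (Form d X 2)) (J : End d X) (τ : Form d X 2)
    (D : Set (TangentBundle (𝓡 d) X)) : Prop where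
  compact : IsCompact D
  ne : D.Nonempty
  sub : D ⊆ UN 𝒞 J τ
  const : ∀ f, Flat J D f → ∀ p ∈ D, ∀ p' ∈ D, f p.proj = f p'.proj
  large : ∀ p ∈ D, ¬ SmallD J D p.proj
  rigid : ∀ w ∈ WS (NN 𝒞 J τ), (∀ p ∈ D, 0 ≤ qq w J p) → ∀ p ∈ D, qq w J p = 0

variable {𝒞 : Set (Form d X 2)} {J : End d X} {τ : Form d X 2}

theorem ne_zero_of_unit {p : TangentBundle (𝓡 d) X} (h : qq τ J p = 1) : p.snd ≠ 0 := by
  intro h0
  have h1 : qq τ J p = q τ J p.proj 0 := by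
    show q τ J p.proj p.snd = _
    rw [h0]
  rw [h1, q_zero] at h
  exact zero_ne_one h

/-- from the unit null vectors to all null vectors -/
theorem pos_of_un (hτt : ∀ x, TamesAt τ J x) {η : Form d X 2}
    (h : ∀ p ∈ UN 𝒞 J τ, 0 < qq η J p) (x : X) : Pos 𝒞 J τ η x := by
  intro v hv hnull
  have pv : 0 < q τ J x v := hτt x v hv
  have sv := Real.sqrt_pos.2 pv
  have h1 := h ⟨x, (√(q τ J x v))⁻¹ • v⟩ ⟨by
    show q τ J x ((√(q τ J x v))⁻¹ • v) = 1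
    rw [q_hom, inv_pow, Real.sq_sqrt pv.le]
    exact inv_mul_cancel₀ pv.ne', fun θ hθ hs => by
    show q θ J x ((√(q τ J x v))⁻¹ • v) ≤ 0
    rw [q_hom]
    exact mul_nonpos_of_nonneg_of_nonpos (sq_nonneg _) (hnull θ hθ hs)⟩
  have h2 : 0 < q η J x ((√(q τ J x v))⁻¹ • v) := h1
  rw [q_hom] at h2
  exact pos_of_mul_pos_right h2 (sq_nonneg _)

/-- `w` is bounded above on the null vectors by nonnegative multiples of forms of `𝒞` plus exact
forms, up to small errors -/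
def Maj (𝒞 : Set (Form d X 2)) (J : End d X) (τ w : Form d X 2) : Prop :=
  ∀ ε : ℝ, 0 < ε → ∃ s : ℝ, 0 ≤ s ∧ ∃ σ ∈ 𝒞, ∃ ρ, ExactF ρ ∧
    ∀ p ∈ UN 𝒞 J τ, qq w J p - ε ≤ qq (s • σ + ρ) J p

theorem exactF_zero : ExactF (0 : Form d X 2) := ⟨0, IsSmooth.zero, IsSmooth.zero, IsD.zero⟩

theorem exactF_add {ρ ρ' : Form d X 2} (h : ExactF ρ) (h' : ExactF ρ') : ExactF (ρ + ρ') := by
  obtain ⟨β, h1, h2, h3⟩ := h
  obtain ⟨β', h1', h2', h3'⟩ := h'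
  exact ⟨β + β', h1.add h1', h2.add h2', h3.add h3' h1 h1'⟩

theorem exactF_smul (c : ℝ) {ρ : Form d X 2} (h : ExactF ρ) : ExactF (c • ρ) := by
  obtain ⟨β, h1, h2, h3⟩ := h
  exact ⟨c • β, h1.smul c, h2.smul c, h3.smul c⟩

theorem Maj.exact (hne : 𝒞.Nonempty) {ρ : Form d X 2} (hρ : ExactF ρ) : Maj 𝒞 J τ ρ := by
  obtain ⟨σ, hσ⟩ := hne
  intro ε hε
  refine ⟨0, le_rfl, σ, hσ, ρ, hρ, fun p _ => ?_⟩
  rw [qq_add, qq_smul]
  linarith

theorem Maj.mem {σ : Form d X 2} (hσ : σ ∈ 𝒞) : Maj 𝒞 J τ σ := by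
  intro ε hε
  refine ⟨1, zero_le_one, σ, hσ, 0, exactF_zero, fun p _ => ?_⟩
  rw [qq_add, qq_smul, qq_zero]
  linarith

theorem Maj.neg {σ : Form d X 2} (hσ : σ ∈ NN 𝒞 J τ) : Maj 𝒞 J τ (-σ) := by
  intro ε hε
  obtain ⟨ρ, hρ, h⟩ := hσ.2 ε hε
  refine ⟨0, le_rfl, σ, hσ.1, ρ, hρ, fun p hp => ?_⟩
  have h1 := h p hp
  have h2 : qq (-σ) J p = - qq σ J p := rfl
  rw [qq_add] at h1
  rw [qq_add, qq_smul, h2]
  linarith

theorem comb_mem (hC : Convex ℝ 𝒞) {s s' : ℝ} (hs : 0 ≤ s) (hs' : 0 ≤ s') {σ σ' : Form d X 2}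
    (hσ : σ ∈ 𝒞) (hσ' : σ' ∈ 𝒞) : ∃ σ'' ∈ 𝒞, (s + s') • σ'' = s • σ + s' • σ' := by
  rcases (add_nonneg hs hs').eq_or_lt' with h | h
  · have h1 : s = 0 := by linarith
    have h2 : s' = 0 := by linarith
    refine ⟨σ, hσ, ?_⟩
    rw [h1, h2]
    simp
  · refine ⟨(s / (s + s')) • σ + (s' / (s + s')) • σ', hC hσ hσ' (by positivity) (by positivity)
      (by field_simp), ?_⟩
    rw [smul_add, smul_smul, smul_smul, mul_div_cancel₀ _ h.ne', mul_div_cancel₀ _ h.ne']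

theorem Maj.add (hC : Convex ℝ 𝒞) {w w' : Form d X 2} (h : Maj 𝒞 J τ w) (h' : Maj 𝒞 J τ w') :
    Maj 𝒞 J τ (w + w') := by
  intro ε hε
  obtain ⟨s, hs, σ, hσ, ρ, hρ, h1⟩ := h (ε / 2) (by positivity)
  obtain ⟨s', hs', σ', hσ', ρ', hρ', h1'⟩ := h' (ε / 2) (by positivity)
  obtain ⟨σ'', hσ'', h2⟩ := comb_mem hC hs hs' hσ hσ'
  refine ⟨s + s', add_nonneg hs hs', σ'', hσ'', ρ + ρ', exactF_add hρ hρ', fun p hp => ?_⟩
  rw [h2]
  have e1 := h1 p hp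
  have e2 := h1' p hp
  simp only [qq_add] at e1 e2 ⊢
  linarith

theorem Maj.smul {w : Form d X 2} (hw : Maj 𝒞 J τ w) {c : ℝ} (hc : 0 ≤ c) :
    Maj 𝒞 J τ (c • w) := by
  intro ε hε
  obtain ⟨s, hs, σ, hσ, ρ, hρ, h1⟩ := hw (ε / (c + 1)) (by positivity)
  refine ⟨c * s, mul_nonneg hc hs, σ, hσ, c • ρ, exactF_smul c hρ, fun p hp => ?_⟩
  have e1 := mul_le_mul_of_nonneg_left (h1 p hp) hc
  have e2 : c * (ε / (c + 1)) ≤ ε := by
    rw [mul_div_assoc', div_le_iff₀ (by positivity)]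
    nlinarith
  simp only [qq_add, qq_smul] at e1 ⊢
  nlinarith

theorem maj_congr {w w' : Form d X 2} (h : Maj 𝒞 J τ w) (he : ∀ p, qq w' J p = qq w J p) :
    Maj 𝒞 J τ w' := by
  intro ε hε
  obtain ⟨s, hs, σ, hσ, ρ, hρ, h1⟩ := h ε hε
  exact ⟨s, hs, σ, hσ, ρ, hρ, fun p hp => by rw [he]; exact h1 p hp⟩

theorem maj_ws (hC : Convex ℝ 𝒞) (hne : 𝒞.Nonempty) {w : Form d X 2}
    (hw : w ∈ WS (NN 𝒞 J τ)) : Maj 𝒞 J τ w ∧ Maj 𝒞 J τ (-w) := by
  induction hw using Submodule.span_induction with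
  | mem x hx =>
    rcases hx with hx | hx
    · exact ⟨Maj.mem hx.1, Maj.neg hx⟩
    · refine ⟨Maj.exact hne hx, maj_congr (Maj.exact hne (exactF_smul (-1) hx)) fun p => ?_⟩
      have h2 : qq (-x) J p = - qq x J p := rfl
      rw [h2, qq_smul]
      ring
  | zero => exact ⟨Maj.exact hne exactF_zero, by rw [neg_zero]; exact Maj.exact hne exactF_zero⟩
  | add x y _ _ h1 h2 => exact ⟨h1.1.add hC h2.1, by rw [neg_add]; exact h1.2.add hC h2.2⟩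
  | smul a x _ h =>
    rcases le_total 0 a with ha | ha
    · exact ⟨h.1.smul ha, by rw [← smul_neg]; exact h.2.smul ha⟩
    · refine ⟨maj_congr (h.2.smul (neg_nonneg.2 ha)) fun p => ?_,
        maj_congr (h.1.smul (neg_nonneg.2 ha)) fun p => ?_⟩
      · have h2 : qq (-x) J p = - qq x J p := rfl
        rw [qq_smul, qq_smul, h2]
        ring
      · have h2 : qq (-(a • x)) J p = - qq (a • x) J p := rfl
        rw [h2, qq_smul, qq_smul]
        ring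

variable [IsManifold (𝓡 d) ∞ X]

theorem un_compact [CompactSpace X] [T2Space X] (hJ : IsAlmostComplex J) (hτ : IsSmooth τ)
    (hτt : ∀ x, TamesAt τ J x) : IsCompact (UN 𝒞 J τ) := by
  have h1 := unit_compact hJ hτ hτt
  have h2 : IsClosed {p : TangentBundle (𝓡 d) X | NullV 𝒞 J τ p.proj p.snd} := by
    have h3 : {p : TangentBundle (𝓡 d) X | NullV 𝒞 J τ p.proj p.snd} =
        ⋂ (θ : Form d X 2) (_ : IsSmooth θ) (_ : Supp 𝒞 J τ (fun y u => max (q θ J y u) 0)),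
          {p | qq θ J p ≤ 0} := by
      ext p
      rw [mem_iInter]
      refine forall_congr' fun θ => ?_
      rw [mem_iInter]
      refine forall_congr' fun hθ => ?_
      rw [mem_iInter]
      rfl
    rw [h3]
    exact isClosed_iInter fun θ => isClosed_iInter fun hθ => isClosed_iInter fun _ =>
      isClosed_le (qq_cont hθ hJ) continuous_const
  exact h1.inter_right h2

/-- positivity on the null vectors, with the forms of `𝒞` -/
theorem pos_of_hasP [CompactSpace X] [T2Space X] (hJ : IsAlmostComplex J) (hτ : IsSmooth τ)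
    (hτt : ∀ x, TamesAt τ J x) (hC : FC 𝒞) (hne : 𝒞.Nonempty) {ζ : Form d X 2}
    (hζ : IsSmooth ζ) (h : HasP J (NN 𝒞 J τ) ζ (UN 𝒞 J τ)) :
    ∃ s : ℝ, 0 ≤ s ∧ ∃ σ ∈ 𝒞, ∃ ρ, ExactF ρ ∧ ∀ p ∈ UN 𝒞 J τ, 0 < qq (ζ + (s • σ + ρ)) J p := by
  obtain ⟨w, hw, hpos⟩ := h
  have hws : IsSmooth w := ws_smooth (fun σ hσ => hC.smooth σ hσ.1) hw
  have hK := un_compact (𝒞 := 𝒞) hJ hτ hτt
  obtain ⟨c, hc, hc'⟩ : ∃ c : ℝ, 0 < c ∧ ∀ p ∈ UN 𝒞 J τ, c ≤ qq (ζ + w) J p := by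
    rcases (UN 𝒞 J τ).eq_empty_or_nonempty with he | hne'
    · exact ⟨1, one_pos, fun p hp => by rw [he] at hp; exact absurd hp (notMem_empty p)⟩
    · obtain ⟨p₀, hp₀, hmin⟩ := hK.exists_isMinOn hne' (qq_cont (hζ.add hws) hJ).continuousOn
      exact ⟨_, hpos p₀ hp₀, fun p hp => hmin hp⟩
  obtain ⟨s, hs, σ, hσ, ρ, hρ, h1⟩ := (maj_ws hC.convex hne hw).1 (c / 2) (by positivity)
  refine ⟨s, hs, σ, hσ, ρ, hρ, fun p hp => ?_⟩
  have h2 := h1 p hp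
  have h3 := hc' p hp
  rw [qq_add] at h3 ⊢
  linarith

/-- small multiples of `ζ` -/
theorem tame_of_hasP [CompactSpace X] [T2Space X] (hJ : IsAlmostComplex J) (hτ : IsSmooth τ)
    (hτt : ∀ x, TamesAt τ J x) (hC : FC 𝒞) (hn : Nef 𝒞 J τ) {ζ : Form d X 2}
    (hζ : IsSmooth ζ) (h : HasP J (NN 𝒞 J τ) ζ (UN 𝒞 J τ)) :
    ∃ t₀ : ℝ, 0 < t₀ ∧ ∀ t : ℝ, 0 < t → t ≤ t₀ → ∃ σ ∈ 𝒞, ∀ x, TamesAt (σ + t • ζ) J x := by
  have hne : 𝒞.Nonempty := by
    obtain ⟨σ, hσ, -⟩ := hn 1 one_pos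
    exact ⟨σ, hσ⟩
  obtain ⟨s, hs, σ₁, hσ₁, ρ, ⟨β, hβ, hρ, hD⟩, hpos⟩ := pos_of_hasP hJ hτ hτt hC hne hζ h
  have hη : IsSmooth (ζ + (s • σ₁ + ρ)) := hζ.add (((hC.smooth σ₁ hσ₁).smul s).add hρ)
  obtain ⟨f, M, c, h1, h2, h3, h4⟩ := central hJ hτ hτt hC.convex hn hη
    (isCompact_univ (X := X)) fun x _ => pos_of_un hτt hpos x
  have key : ∀ t : ℝ, 0 < t → t ≤ 1 / (M + 1) → ∃ σ ∈ 𝒞, ∀ (x : X) (v : TangentSpace (𝓡 d) x),
      v ≠ 0 → 0 < q σ J x v + t * (s * q σ₁ J x v) + t * q ζ J x v := by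
    intro t ht0 ht1
    obtain ⟨σ, hσ, h5⟩ := h1.supp (t * c / 2) (by positivity)
    refine ⟨σ + t • ρ, hC.exact σ hσ (t • β) (t • ρ) (hβ.smul t) (hρ.smul t) (hD.smul t),
      fun x v hv => ?_⟩
    have t0 : 0 < q τ J x v := hτt x v hv
    have e2 := h4 x (mem_univ x) v
    have e3 := h5 x v
    have e4 := h1.nonneg x v
    have e5 : t * M ≤ 1 := by
      have h6 : t * (M + 1) ≤ 1 := by
        calc t * (M + 1) ≤ 1 / (M + 1) * (M + 1) :=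
              mul_le_mul_of_nonneg_right ht1 (by positivity)
          _ = 1 := by field_simp
      nlinarith
    have e6 : q (ζ + (s • σ₁ + ρ)) J x v = q ζ J x v + (s * q σ₁ J x v + q ρ J x v) := rfl
    have e7 : q (σ + t • ρ) J x v = q σ J x v + t * q ρ J x v := rfl
    rw [e6] at e2
    rw [e7]
    have e8 : t * (c * q τ J x v) ≤
        t * (q ζ J x v + (s * q σ₁ J x v + q ρ J x v) + M * f x v) :=
      mul_le_mul_of_nonneg_left e2 ht0.le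
    have e9 : t * M * f x v ≤ 1 * f x v := mul_le_mul_of_nonneg_right e5 e4
    have e10 : 0 < t * c * q τ J x v := by positivity
    nlinarith
  set t₀ := 1 / (M + 1) with ht₀
  have ht₀p : 0 < t₀ := by positivity
  refine ⟨t₀ / (1 + t₀ * s), by positivity, fun t ht ht' => ?_⟩
  have hd : 0 < 1 + t₀ * s := by positivity
  rw [le_div_iff₀ hd] at ht'
  have hts : t * s < 1 := by
    have h5 : t * s * (1 + t₀ * s) ≤ t₀ * s := by nlinarith
    by_contra hcon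
    push Not at hcon
    nlinarith
  have h1ts : 0 < 1 - t * s := by linarith
  obtain ⟨σ, hσ, h5⟩ := key (t / (1 - t * s)) (by positivity) (by
    rw [div_le_iff₀ h1ts]
    nlinarith)
  refine ⟨(1 - t * s) • σ + (t * s) • σ₁, hC.convex hσ hσ₁ h1ts.le (by positivity) (by ring),
    fun x v hv => ?_⟩
  have h6 := mul_pos h1ts (h5 x v hv)
  have h7 : (1 - t * s) * (q σ J x v + t / (1 - t * s) * (s * q σ₁ J x v) +
      t / (1 - t * s) * q ζ J x v) =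
      (1 - t * s) * q σ J x v + t * s * q σ₁ J x v + t * q ζ J x v := by
    field_simp
  rw [h7] at h6
  exact h6

/-- forms in `𝒞` -/
theorem tame_of_hasP' [CompactSpace X] [T2Space X] (hJ : IsAlmostComplex J) (hτ : IsSmooth τ)
    (hτt : ∀ x, TamesAt τ J x) (hC : FC 𝒞) {ζ : Form d X 2} (hζ : ζ ∈ 𝒞)
    (h : HasP J (NN 𝒞 J τ) ζ (UN 𝒞 J τ)) : ∃ σ ∈ 𝒞, ∀ x, TamesAt σ J x := by
  by_cases hn : Nef 𝒞 J τ
  · obtain ⟨t, ht, h1⟩ := tame_of_hasP hJ hτ hτt hC hn (hC.smooth ζ hζ) h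
    obtain ⟨σ, hσ, h2⟩ := h1 t ht le_rfl
    refine ⟨(1 / (1 + t)) • σ + (t / (1 + t)) • ζ, hC.convex hσ hζ (by positivity) (by positivity)
      (by field_simp), fun x v hv => ?_⟩
    have h3 : 0 < q σ J x v + t * q ζ J x v := h2 x v hv
    show 0 < 1 / (1 + t) * q σ J x v + t / (1 + t) * q ζ J x v
    have h4 : 1 / (1 + t) * q σ J x v + t / (1 + t) * q ζ J x v =
        1 / (1 + t) * (q σ J x v + t * q ζ J x v) := by
      field_simp
    rw [h4]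
    positivity
  · obtain ⟨s, hs, σ₁, hσ₁, ρ, ⟨β, hβ, hρ, hD⟩, hpos⟩ :=
      pos_of_hasP hJ hτ hτt hC ⟨ζ, hζ⟩ (hC.smooth ζ hζ) h
    have hall : ∀ (x : X) (v : TangentSpace (𝓡 d) x), NullV 𝒞 J τ x v := by
      intro x v θ hθ hs
      refine absurd (fun ε hε => ?_) hn
      obtain ⟨σ, hσ, h1⟩ := hs ε hε
      refine ⟨σ, hσ, fun y u => ?_⟩
      have h2 := h1 y u
      have h3 := le_max_right (q θ J y u) 0
      linarith
    have h1 : (1 / (1 + s)) • ζ + (s / (1 + s)) • σ₁ ∈ 𝒞 :=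
      hC.convex hζ hσ₁ (by positivity) (by positivity) (by field_simp)
    refine ⟨_, hC.exact _ h1 ((1 / (1 + s)) • β) ((1 / (1 + s)) • ρ) (hβ.smul _) (hρ.smul _)
      (hD.smul _), fun x v hv => ?_⟩
    have h2 : 0 < q ζ J x v + (s * q σ₁ J x v + q ρ J x v) :=
      pos_of_un hτt hpos x v hv (hall x v)
    show 0 < 1 / (1 + s) * q ζ J x v + s / (1 + s) * q σ₁ J x v + 1 / (1 + s) * q ρ J x v
    have h4 : 1 / (1 + s) * q ζ J x v + s / (1 + s) * q σ₁ J x v + 1 / (1 + s) * q ρ J x v =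
        1 / (1 + s) * (q ζ J x v + (s * q σ₁ J x v + q ρ J x v)) := by
      field_simp
      ring
    rw [h4]
    positivity

/-- existence of test sets -/
theorem exists_test [CompactSpace X] [T2Space X] (hJ : IsAlmostComplex J) (hτ : IsSmooth τ)
    (hτt : ∀ x, TamesAt τ J x) (hC : FC 𝒞) {ζ : Form d X 2} (hζ : IsSmooth ζ)
    (h : ¬ HasP J (NN 𝒞 J τ) ζ (UN 𝒞 J τ)) :
    ∃ D, TestD 𝒞 J τ D ∧ ∀ w ∈ WS (NN 𝒞 J τ), (∀ p ∈ D, 0 ≤ qq (ζ + w) J p) →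
      ∀ p ∈ D, ¬ 0 < qq (ζ + w) J p := by
  let _ : MeasurableSpace (TangentBundle (𝓡 d) X) := borel _
  have _ : BorelSpace (TangentBundle (𝓡 d) X) := ⟨rfl⟩
  have hT2 := tb_t2 (d := d) (X := X)
  have hNs : ∀ σ ∈ NN 𝒞 J τ, IsSmooth σ := fun σ hσ => hC.smooth σ hσ.1
  obtain ⟨D, hDK, hD, hDn, hmin⟩ := exists_min hJ hNs hζ (un_compact hJ hτ hτt) h
  obtain ⟨μ, hμ⟩ := exists_cr hJ hNs hζ hD hDn
  have hfull := fun (p : TangentBundle (𝓡 d) X) (hp : p ∈ D) =>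
    full_support hJ hNs hζ hD hmin hμ hp
  have hNn : ∀ σ ∈ NN 𝒞 J τ, NefOn J D σ := by
    intro σ hσ ε hε
    obtain ⟨ρ, hρ, h1⟩ := hσ.2 ε hε
    exact ⟨ρ, hρ, fun p hp => h1 p (hDK hp)⟩
  refine ⟨D, ⟨hD, ?_, hDK, ?_, ?_, ?_⟩, ?_⟩
  · rw [nonempty_iff_ne_empty]
    rintro rfl
    exact hDn ⟨0, Submodule.zero_mem _, fun x hx => absurd hx (notMem_empty x)⟩
  · intro f hf p hp p' hp'
    rcases lt_trichotomy (f p.proj) (f p'.proj) with hlt | heq | hgt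
    · exact (indec hJ hNs hNn hζ hD hmin hμ hf hp hp' hlt).elim
    · exact heq
    · exact (indec hJ hNs hNn hζ hD hmin hμ hf hp' hp hgt).elim
  · intro p hp hs
    exact not_thin hJ hD hμ hfull ⟨p, hp, rfl⟩
      (hs.thin hJ fun p hp => ne_zero_of_unit (hDK hp).1)
  · intro w hw hnn p hp
    exact rigid_zero hJ hNs hD hμ hfull hw hnn hp
  · intro w hw hnn p hp
    exact semi_zero hJ hNs hζ hD hμ hfull hw hnn hp

/-- no test sets over a countable union of small sets -/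
theorem no_test_of_cover [CompactSpace X] [T2Space X] (hJ : IsAlmostComplex J)
    (F : ℕ → Set X) (hF : ∀ k, IsClosed (F k))
    (hcov : ∀ p ∈ UN 𝒞 J τ, ∃ k, p.proj ∈ F k)
    (hsm : ∀ k, ∀ z ∈ F k, SmallD J {p | p ∈ UN 𝒞 J τ ∧ p.proj ∈ F k} z)
    {D : Set (TangentBundle (𝓡 d) X)} (hD : TestD 𝒞 J τ D) : False := by
  have hpr : Continuous (Bundle.TotalSpace.proj : TangentBundle (𝓡 d) X → X) :=
    FiberBundle.continuous_proj (E d) (TangentSpace (𝓡 d))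
  have hB : IsCompact (bs D) := hD.compact.image hpr
  have hBn : (bs D).Nonempty := hD.ne.image _
  have hcs : CompactSpace (bs D) := isCompact_iff_compactSpace.1 hB
  have hne : Nonempty (bs D) := hBn.to_subtype
  obtain ⟨k, ⟨z, hz⟩⟩ := nonempty_interior_of_iUnion_of_closed
    (f := fun k => (Subtype.val : bs D → X) ⁻¹' F k)
    (fun k => (hF k).preimage continuous_subtype_val) (by
      refine eq_univ_of_forall fun z => ?_
      obtain ⟨p, hp, hpz⟩ := z.2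
      obtain ⟨k, hk⟩ := hcov p (hD.sub hp)
      refine mem_iUnion.2 ⟨k, ?_⟩
      show (z : X) ∈ F k
      rw [← hpz]
      exact hk)
  obtain ⟨U, hU, hU2⟩ := isOpen_induced_iff.1
    (isOpen_interior (s := (Subtype.val : bs D → X) ⁻¹' F k))
  have hsub : ∀ y ∈ bs D, y ∈ U → y ∈ F k := by
    intro y hy hyU
    have h1 : (⟨y, hy⟩ : bs D) ∈ (Subtype.val : bs D → X) ⁻¹' U := hyU
    rw [hU2] at h1
    exact (interior_subset (s := (Subtype.val : bs D → X) ⁻¹' F k) h1 : _)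
  have hzU : (z : X) ∈ U := by
    rw [← hU2] at hz
    exact hz
  have hzk : (z : X) ∈ F k := interior_subset (s := (Subtype.val : bs D → X) ⁻¹' F k) hz
  obtain ⟨n, a, b, N, hN, ha, hb, hnull, hpos⟩ :=
    (hsm k z hzk).thin hJ fun p hp => ne_zero_of_unit hp.1.1
  obtain ⟨p₀, hp₀, hpz⟩ := z.2
  have hth : ThinD J D p₀.proj := by
    rw [hpz]
    refine ⟨n, a, b, N ∩ U, Filter.inter_mem hN (hU.mem_nhds hzU), ha, hb,
      fun i => measure_mono_null (image_mono ?_) (hnull i), fun p hp hpe => ?_⟩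
    · rintro y ⟨⟨p, hp, rfl⟩, hyN, hyU⟩
      exact ⟨⟨p, ⟨hD.sub hp, hsub p.proj ⟨p, hp, rfl⟩ hyU⟩, rfl⟩, hyN⟩
    · refine hpos p ⟨hD.sub hp, ?_⟩ hpe
      rw [hpe]
      exact hzk
  exact hD.large p₀ hp₀ (Or.inr (Or.inr hth))

end Pool.Agent.L7h49.TS
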