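import Pool.Agent.L7h49.TS.Tb
import Pool.Agent.R772.Min

/-!
# Closed currents carried by sets of tangent vectors
-/

set_option autoImplicit false

open Set Filter Topology MeasureTheory
open scoped Manifold ContDiff Bundle ENNReal NNReal

noncomputable section

namespace Pool.Agent.L7h49.TS

open Pool.Agent.Y501.SY
open Pool.Agent.N13.TL
open Pool.Agent.R772 (ExactF sep_measure approx errF errF_smooth)

variable {d : ℕ} {X : Type} [TopologicalSpace X] [ChartedSpace (E d) X]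

theorem qq_add (σ ρ : Form d X 2) (J : End d X) (p : TangentBundle (𝓡 d) X) :
    qq (σ + ρ) J p = qq σ J p + qq ρ J p := rfl

theorem qq_smul (c : ℝ) (σ : Form d X 2) (J : End d X) (p : TangentBundle (𝓡 d) X) :
    qq (c • σ) J p = c * qq σ J p := rfl

theorem qq_zero (J : End d X) (p : TangentBundle (𝓡 d) X) : qq (0 : Form d X 2) J p = 0 := rfl

/-- `σ` is nonnegative on `K` up to exact forms and small errors -/
def NefOn (J : End d X) (K : Set (TangentBundle (𝓡 d) X)) (σ : Form d X 2) : Prop :=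
  ∀ ε : ℝ, 0 < ε → ∃ ρ : Form d X 2, ExactF ρ ∧ ∀ p ∈ K, -ε ≤ qq (σ + ρ) J p

/-- the space spanned by `𝒩` and the exact forms -/
def WS (𝒩 : Set (Form d X 2)) : Submodule ℝ (Form d X 2) :=
  Submodule.span ℝ (𝒩 ∪ {ρ | ExactF ρ})

theorem exactF_mem {𝒩 : Set (Form d X 2)} {ρ : Form d X 2} (h : ExactF ρ) : ρ ∈ WS 𝒩 :=
  Submodule.subset_span (Or.inr h)

theorem ws_smooth {𝒩 : Set (Form d X 2)} (h𝒩 : ∀ σ ∈ 𝒩, IsSmooth σ) {w : Form d X 2}
    (hw : w ∈ WS 𝒩) : IsSmooth w := by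
  induction hw using Submodule.span_induction with
  | mem x hx =>
    rcases hx with hx | ⟨β, h1, h2, h3⟩
    · exact h𝒩 x hx
    · exact h2
  | zero => exact IsSmooth.zero
  | add x y _ _ h1 h2 => exact h1.add h2
  | smul a x _ h => exact h.smul a

/-- for some `w` in the space of `𝒩` the form `ζ + w` is positive on `D` -/
def HasP (J : End d X) (𝒩 : Set (Form d X 2)) (ζ : Form d X 2)
    (D : Set (TangentBundle (𝓡 d) X)) : Prop :=
  ∃ w ∈ WS 𝒩, ∀ p ∈ D, 0 < qq (ζ + w) J p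

/-- a closed positive current carried by `D`, zero on the forms of `𝒩` and nonpositive on `ζ` -/
structure Cr [MeasurableSpace (TangentBundle (𝓡 d) X)] (J : End d X) (𝒩 : Set (Form d X 2))
    (ζ : Form d X 2) (D : Set (TangentBundle (𝓡 d) X)) (μ : Measure (TangentBundle (𝓡 d) X)) :
    Prop where
  fin : IsFiniteMeasure μ
  ne : μ ≠ 0
  car : μ Dᶜ = 0
  orth : ∀ w ∈ WS 𝒩, ∫ p, qq w J p ∂μ = 0
  le : ∫ p, qq ζ J p ∂μ ≤ 0

theorem Cr.ae [MeasurableSpace (TangentBundle (𝓡 d) X)] {J : End d X} {𝒩 : Set (Form d X 2)}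
    {ζ : Form d X 2} {D : Set (TangentBundle (𝓡 d) X)} {μ : Measure (TangentBundle (𝓡 d) X)}
    (hμ : Cr J 𝒩 ζ D μ) : ∀ᵐ p ∂μ, p ∈ D := by
  have : ∀ᵐ p ∂μ, p ∉ Dᶜ := measure_eq_zero_iff_ae_notMem.1 hμ.car
  exact this.mono fun x hx => not_not.1 hx

/-- continuous functions are integrable -/
theorem int_cont {Y : Type} [TopologicalSpace Y] [MeasurableSpace Y] [BorelSpace Y]
    {D : Set Y} (hD : IsCompact D) {μ : Measure Y} [IsFiniteMeasure μ] (hae : ∀ᵐ p ∂μ, p ∈ D)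
    {g : Y → ℝ} (hg : Continuous g) : Integrable g μ := by
  obtain ⟨C, hC⟩ := hD.exists_bound_of_continuousOn hg.continuousOn
  exact Integrable.of_bound hg.aestronglyMeasurable C (hae.mono fun p hp => hC p hp)

/-- a function which is nonnegative on the carrier and positive at a point of the support -/
theorem int_pos {Y : Type} [TopologicalSpace Y] [MeasurableSpace Y] [BorelSpace Y]
    {D : Set Y} (hD : IsCompact D) {μ : Measure Y} [IsFiniteMeasure μ] (hae : ∀ᵐ p ∂μ, p ∈ D)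
    {g : Y → ℝ} (hg : Continuous g) (hnn : ∀ p ∈ D, 0 ≤ g p) {p : Y} (hp : 0 < g p)
    (hfull : ∀ U : Set Y, IsOpen U → p ∈ U → μ U ≠ 0) : 0 < ∫ p, g p ∂μ := by
  rw [integral_pos_iff_support_of_nonneg_ae (hae.mono fun x hx => hnn x hx)
    (int_cont hD hae hg)]
  exact pos_iff_ne_zero.2 (hfull _ hg.isOpen_support (Function.mem_support.2 hp.ne'))

/-- the functions of the forms -/
def qL (J : End d X) : Form d X 2 →ₗ[ℝ] (TangentBundle (𝓡 d) X → ℝ) where
  toFun σ := qq σ J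
  map_add' _ _ := rfl
  map_smul' _ _ := rfl

variable [IsManifold (𝓡 d) ∞ X]

section meas

variable [T2Space X] [MeasurableSpace (TangentBundle (𝓡 d) X)]
  [BorelSpace (TangentBundle (𝓡 d) X)] {J : End d X} {𝒩 : Set (Form d X 2)} {ζ : Form d X 2}
  {D : Set (TangentBundle (𝓡 d) X)} {μ : Measure (TangentBundle (𝓡 d) X)}

theorem exists_cr (hJ : IsAlmostComplex J) (h𝒩 : ∀ σ ∈ 𝒩, IsSmooth σ) (hζ : IsSmooth ζ)
    (hD : IsCompact D) (h : ¬ HasP J 𝒩 ζ D) :
    ∃ μ : Measure (TangentBundle (𝓡 d) X), Cr J 𝒩 ζ D μ := by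
  have hT2 := tb_t2 (d := d) (X := X)
  obtain ⟨μ, h1, h2, h3, h4, h5⟩ := sep_measure hD ((WS 𝒩).map (qL J)) (by
    rintro _ ⟨w, hw, rfl⟩
    exact qq_cont (ws_smooth h𝒩 hw) hJ) (qq ζ J) (qq_cont hζ hJ) (by
    rintro _ ⟨w, hw, rfl⟩ hpos
    exact h ⟨w, hw, fun x hx => hpos x hx⟩)
  exact ⟨μ, h1, h2, h3, fun w hw => h4 _ ⟨w, hw, rfl⟩, h5⟩

omit [T2Space X] in
theorem Cr.sum (hJ : IsAlmostComplex J) (h𝒩 : ∀ σ ∈ 𝒩, IsSmooth σ) (hζ : IsSmooth ζ)
    (hD : IsCompact D) (hμ : Cr J 𝒩 ζ D μ) {w : Form d X 2} (hw : w ∈ WS 𝒩) :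
    ∫ p, qq (ζ + w) J p ∂μ = ∫ p, qq ζ J p ∂μ := by
  have := hμ.fin
  have e1 : ∀ p, qq (ζ + w) J p = qq ζ J p + qq w J p := fun p => rfl
  simp_rw [e1]
  rw [integral_add (int_cont hD hμ.ae (qq_cont hζ hJ))
    (int_cont hD hμ.ae (qq_cont (ws_smooth h𝒩 hw) hJ)), hμ.orth w hw, add_zero]

omit [T2Space X] in
theorem Cr.not_hasP (hJ : IsAlmostComplex J) (h𝒩 : ∀ σ ∈ 𝒩, IsSmooth σ) (hζ : IsSmooth ζ)
    (hD : IsCompact D) (hμ : Cr J 𝒩 ζ D μ) : ¬ HasP J 𝒩 ζ D := by
  rintro ⟨ρ, hρ, hpos⟩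
  have hfin := hμ.fin
  have hsum := hμ.sum hJ h𝒩 hζ hD hρ
  have hc : Continuous (qq (ζ + ρ) J) := qq_cont (hζ.add (ws_smooth h𝒩 hρ)) hJ
  have hp : 0 < ∫ x, qq (ζ + ρ) J x ∂μ := by
    rw [integral_pos_iff_support_of_nonneg_ae (hμ.ae.mono fun x hx => (hpos x hx).le)
      (int_cont hD hμ.ae hc)]
    refine pos_iff_ne_zero.2 fun h0 => hμ.ne ?_
    rw [← Measure.measure_univ_eq_zero]
    refine le_antisymm ?_ bot_le
    calc μ univ ≤ μ (Function.support (qq (ζ + ρ) J) ∪ Dᶜ) := by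
          refine measure_mono fun x _ => ?_
          by_cases hx : x ∈ D
          · exact Or.inl (hpos x hx).ne'
          · exact Or.inr hx
      _ ≤ μ (Function.support (qq (ζ + ρ) J)) + μ Dᶜ := measure_union_le _ _
      _ = 0 := by rw [h0, hμ.car, add_zero]
  have := hμ.le
  linarith

end meas

/-- minimal carriers exist -/
theorem exists_min [T2Space X] {J : End d X} {𝒩 : Set (Form d X 2)} {ζ : Form d X 2}
    (hJ : IsAlmostComplex J) (h𝒩 : ∀ σ ∈ 𝒩, IsSmooth σ) (hζ : IsSmooth ζ)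
    {K : Set (TangentBundle (𝓡 d) X)} (hK : IsCompact K) (h : ¬ HasP J 𝒩 ζ K) :
    ∃ D ⊆ K, IsCompact D ∧ ¬ HasP J 𝒩 ζ D ∧
      ∀ D' ⊆ D, IsCompact D' → ¬ HasP J 𝒩 ζ D' → D' = D := by
  have hT2 := tb_t2 (d := d) (X := X)
  obtain ⟨D, hDK, hD⟩ := zorn_superset_nonempty
    {D : Set (TangentBundle (𝓡 d) X) | IsCompact D ∧ D ⊆ K ∧ ¬ HasP J 𝒩 ζ D} (by
    intro c hc hchain hne
    refine ⟨⋂₀ c, ⟨?_, ?_, ?_⟩, fun s hs => sInter_subset_of_mem hs⟩
    · obtain ⟨s, hs⟩ := hne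
      exact (hc hs).1.of_isClosed_subset (isClosed_sInter fun s hs => (hc hs).1.isClosed)
        (sInter_subset_of_mem hs)
    · obtain ⟨s, hs⟩ := hne
      exact (sInter_subset_of_mem hs).trans (hc hs).2.1
    · rintro ⟨ρ, hρ, hpos⟩
      have hcont : Continuous (qq (ζ + ρ) J) := qq_cont (hζ.add (ws_smooth h𝒩 hρ)) hJ
      have hne' : Nonempty c := hne.to_subtype
      have hdir : Directed (· ⊇ ·) (fun s : c => (s : Set (TangentBundle (𝓡 d) X))) := by
        intro a b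
        rcases hchain.total a.2 b.2 with h | h
        · exact ⟨a, subset_rfl, h⟩
        · exact ⟨b, h, subset_rfl⟩
      obtain ⟨s, hs⟩ := exists_subset_nhds_of_isCompact' hdir
        (fun s => (hc s.2).1) (fun s => (hc s.2).1.isClosed)
        (U := {x | 0 < qq (ζ + ρ) J x}) (by
          intro x hx
          refine (isOpen_lt continuous_const hcont).mem_nhds (hpos x ?_)
          rw [sInter_eq_iInter]
          exact hx)
      exact (hc s.2).2.2 ⟨ρ, hρ, fun x hx => hs hx⟩) K ⟨hK, subset_rfl, h⟩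
  refine ⟨D, hDK, hD.prop.1, hD.prop.2.2, fun D' h1 h2 h3 => ?_⟩
  exact subset_antisymm h1 (hD.le_of_le ⟨h2, h1.trans hDK, h3⟩ h1)

section meas

variable [T2Space X] [MeasurableSpace (TangentBundle (𝓡 d) X)]
  [BorelSpace (TangentBundle (𝓡 d) X)] {J : End d X} {𝒩 : Set (Form d X 2)} {ζ : Form d X 2}
  {D : Set (TangentBundle (𝓡 d) X)} {μ : Measure (TangentBundle (𝓡 d) X)}

omit [T2Space X] in
/-- minimal carriers: full support -/
theorem full_support (hJ : IsAlmostComplex J) (h𝒩 : ∀ σ ∈ 𝒩, IsSmooth σ) (hζ : IsSmooth ζ)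
    (hD : IsCompact D)
    (hmin : ∀ D' ⊆ D, IsCompact D' → ¬ HasP J 𝒩 ζ D' → D' = D) (hμ : Cr J 𝒩 ζ D μ)
    {p : TangentBundle (𝓡 d) X} (hp : p ∈ D) (U : Set (TangentBundle (𝓡 d) X)) (hU : IsOpen U)
    (hpU : p ∈ U) : μ U ≠ 0 := by
  intro h0
  have h1 : Cr J 𝒩 ζ (D \ U) μ := by
    refine ⟨hμ.fin, hμ.ne, ?_, hμ.orth, hμ.le⟩
    refine measure_mono_null (t := Dᶜ ∪ U) ?_ (measure_union_null hμ.car h0)
    intro y hy
    by_cases hyC : y ∈ D
    · by_cases hyU : y ∈ U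
      · exact Or.inr hyU
      · exact absurd ⟨hyC, hyU⟩ hy
    · exact Or.inl hyC
  have h2 := hmin (D \ U) sdiff_subset (hD.diff hU) (h1.not_hasP hJ h𝒩 hζ (hD.diff hU))
  rw [← h2] at hp
  exact hp.2 hpU

/-- the measure with density `u` -/
def wt (u : TangentBundle (𝓡 d) X → ℝ) (μ : Measure (TangentBundle (𝓡 d) X)) :
    Measure (TangentBundle (𝓡 d) X) :=
  μ.withDensity (fun x => ((Real.toNNReal (u x) : ℝ≥0) : ℝ≥0∞))

omit [T2Space X] in
theorem wt_int {u : TangentBundle (𝓡 d) X → ℝ} (hu : Continuous u) (hu0 : ∀ x, 0 ≤ u x)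
    (g : TangentBundle (𝓡 d) X → ℝ) : ∫ x, g x ∂(wt u μ) = ∫ x, u x * g x ∂μ := by
  unfold wt
  rw [integral_withDensity_eq_integral_smul (hu.measurable.real_toNNReal)]
  refine integral_congr_ae (Eventually.of_forall fun x => ?_)
  change (Real.toNNReal (u x) : ℝ) * g x = u x * g x
  rw [Real.coe_toNNReal _ (hu0 x)]

/-- the differential of `f` vanishes on the vectors of `D` and their images under `J` -/
def Flat (J : End d X) (D : Set (TangentBundle (𝓡 d) X)) (f : X → ℝ) : Prop :=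
  SmoothFun (d := d) f ∧ ∀ p ∈ D, dd f p.proj p.snd = 0 ∧ dd f p.proj (J p.proj p.snd) = 0

omit [IsManifold (𝓡 d) ∞ X] [T2Space X] [MeasurableSpace (TangentBundle (𝓡 d) X)]
  [BorelSpace (TangentBundle (𝓡 d) X)] in
theorem Flat.comp1 {f : X → ℝ} (hf : Flat J D f) {P : ℝ → ℝ} (hP : ContDiff ℝ ∞ P) :
    Flat J D (fun x => P (f x)) := by
  refine ⟨SmoothFun.comp1 hP hf.1, fun p hp => ⟨?_, ?_⟩⟩
  · rw [dd_comp1 hP hf.1, (hf.2 p hp).1, mul_zero]
  · rw [dd_comp1 hP hf.1, (hf.2 p hp).2, mul_zero]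

omit [T2Space X] [BorelSpace (TangentBundle (𝓡 d) X)] in
/-- flat functions times closed currents are closed -/
theorem flat_exact (hμ : Cr J 𝒩 ζ D μ) {u : X → ℝ} (hu : Flat J D u) {ρ : Form d X 2}
    (hρ : ExactF ρ) : ∫ p, u p.proj * qq ρ J p ∂μ = 0 := by
  have hPr := Pool.Agent.Y658.SY.t_PROD
  obtain ⟨β, h1, h2, h3⟩ := hρ
  obtain ⟨p1, p2, p3, -, p5⟩ := hPr d X u β ρ hu.1 h1 h2 h3
  rw [← hμ.orth (prodD u β ρ) (exactF_mem ⟨_, p1, p2, p3⟩)]
  refine integral_congr_ae ?_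
  filter_upwards [hμ.ae] with p hp
  have e1 := p5 p.proj p.snd (J p.proj p.snd)
  show u p.proj * ρ p.proj ![p.snd, J p.proj p.snd] =
    prodD u β ρ p.proj ![p.snd, J p.proj p.snd]
  rw [e1, (hu.2 p hp).1, (hu.2 p hp).2]
  ring

omit [T2Space X] in
/-- nonnegative flat functions times closed currents are nonnegative on nef forms -/
theorem flat_nef (hJ : IsAlmostComplex J) (hD : IsCompact D) (hμ : Cr J 𝒩 ζ D μ) {u : X → ℝ}
    (hu : Flat J D u) (hu0 : ∀ x, 0 ≤ u x) {σ : Form d X 2} (hσ : IsSmooth σ)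
    (hn : NefOn J D σ) : 0 ≤ ∫ p, u p.proj * qq σ J p ∂μ := by
  have hfin := hμ.fin
  have hpr : Continuous (Bundle.TotalSpace.proj : TangentBundle (𝓡 d) X → X) :=
    FiberBundle.continuous_proj (E d) (TangentSpace (𝓡 d))
  have huc : Continuous (fun p : TangentBundle (𝓡 d) X => u p.proj) := hu.1.continuous.comp hpr
  have hB : 0 ≤ ∫ p, u p.proj ∂μ := integral_nonneg fun p => hu0 _
  have key : ∀ ε : ℝ, 0 < ε → -ε * ∫ p, u p.proj ∂μ ≤ ∫ p, u p.proj * qq σ J p ∂μ := by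
    intro ε hε
    obtain ⟨ρ, hρ, h1⟩ := hn ε hε
    have hρs : IsSmooth ρ := by
      obtain ⟨β, -, h, -⟩ := hρ
      exact h
    have h2 := flat_exact hμ hu hρ
    have i1 : Integrable (fun p => u p.proj * qq σ J p) μ :=
      int_cont hD hμ.ae (huc.mul (qq_cont hσ hJ))
    have i2 : Integrable (fun p => u p.proj * qq ρ J p) μ :=
      int_cont hD hμ.ae (huc.mul (qq_cont hρs hJ))
    have h3 : ∫ p, u p.proj * qq σ J p ∂μ = ∫ p, (u p.proj * qq σ J p + u p.proj * qq ρ J p) ∂μ := by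
      rw [integral_add i1 i2, h2, add_zero]
    rw [h3, ← integral_const_mul]
    refine integral_mono_ae ((int_cont hD hμ.ae huc).const_mul _) (i1.add i2) ?_
    filter_upwards [hμ.ae] with p hp
    have h4 := mul_le_mul_of_nonneg_left (h1 p hp) (hu0 p.proj)
    rw [qq_add] at h4
    linarith
  by_contra hneg
  push Not at hneg
  set A := ∫ p, u p.proj * qq σ J p ∂μ with hA
  set B := ∫ p, u p.proj ∂μ with hB'
  have h1 := key (-A / (2 * (B + 1))) (by
    have : 0 < -A := by linarith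
    positivity)
  have h2 : -A / (2 * (B + 1)) * B < -A := by
    rw [div_mul_eq_mul_div, div_lt_iff₀ (by positivity)]
    nlinarith
  linarith

omit [T2Space X] in
/-- closed currents can be multiplied by functions which are flat on the carrier -/
theorem Cr.wt (hJ : IsAlmostComplex J) (h𝒩 : ∀ σ ∈ 𝒩, IsSmooth σ) (h𝒩' : ∀ σ ∈ 𝒩, NefOn J D σ)
    (hD : IsCompact D) {D' : Set (TangentBundle (𝓡 d) X)}
    (hμ : Cr J 𝒩 ζ D μ) {u : X → ℝ} (hu : Flat J D u) (hu0 : ∀ x, 0 ≤ u x) (hu1 : ∀ x, u x ≤ 1)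
    (hDD' : ∀ p ∈ D, u p.proj ≠ 0 → p ∈ D') (hpos : 0 < ∫ p, u p.proj ∂μ)
    (hle : ∫ p, u p.proj * qq ζ J p ∂μ ≤ 0) : Cr J 𝒩 ζ D' (wt (fun p => u p.proj) μ) := by
  have hfin := hμ.fin
  have hpr : Continuous (Bundle.TotalSpace.proj : TangentBundle (𝓡 d) X → X) :=
    FiberBundle.continuous_proj (E d) (TangentSpace (𝓡 d))
  have huc : Continuous (fun p : TangentBundle (𝓡 d) X => u p.proj) := hu.1.continuous.comp hpr
  refine ⟨?_, fun h0 => ?_, ?_, ?_, ?_⟩
  · exact isFiniteMeasure_withDensity_ofReal (int_cont hD hμ.ae huc).hasFiniteIntegral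
  · have h1 := wt_int (μ := μ) huc (fun p => hu0 p.proj) (fun _ => (1 : ℝ))
    rw [h0, integral_zero_measure] at h1
    simp only [mul_one] at h1
    linarith
  · change μ.withDensity (fun x => ((Real.toNNReal (u x.proj) : ℝ≥0) : ℝ≥0∞)) D'ᶜ = 0
    rw [withDensity_apply_eq_zero (by
      exact (huc.measurable.real_toNNReal).coe_nnreal_ennreal)]
    refine measure_mono_null ?_ hμ.car
    rintro x ⟨hx1, hx2⟩ hx3
    refine hx2 (hDD' x hx3 fun h0 => hx1 ?_)
    rw [h0, Real.toNNReal_zero]; rfl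
  · intro w hw
    rw [wt_int huc (fun p => hu0 p.proj)]
    induction hw using Submodule.span_induction with
    | mem x hx =>
      rcases hx with hx | hx
      · have h1 := flat_nef hJ hD hμ hu hu0 (h𝒩 x hx) (h𝒩' x hx)
        have h2 := flat_nef hJ hD hμ (u := fun y => 1 - u y)
          (hu.comp1 (P := fun s => 1 - s) (contDiff_const.sub contDiff_id))
          (fun y => sub_nonneg.2 (hu1 y)) (h𝒩 x hx) (h𝒩' x hx)
        have hxc := qq_cont (h𝒩 x hx) hJ
        have h3 : ∫ p, (1 - u p.proj) * qq x J p ∂μ = - ∫ p, u p.proj * qq x J p ∂μ := by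
          have h4 := hμ.orth x (Submodule.subset_span (Or.inl hx))
          have h5 : ∫ p, (1 - u p.proj) * qq x J p ∂μ =
              ∫ p, qq x J p ∂μ - ∫ p, u p.proj * qq x J p ∂μ := by
            have i3 : Integrable (fun p => u p.proj * qq x J p) μ :=
              int_cont hD hμ.ae (huc.mul hxc)
            rw [← integral_sub (int_cont hD hμ.ae hxc) i3]
            refine integral_congr_ae (Eventually.of_forall fun p => ?_)
            show (1 - u p.proj) * qq x J p = qq x J p - u p.proj * qq x J p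
            ring
          rw [h5, h4, zero_sub]
        linarith
      · exact flat_exact hμ hu hx
    | zero =>
      simp only [qq_zero, mul_zero, integral_zero]
    | add x y hx hy h1 h2 =>
      have i1 : Integrable (fun p => u p.proj * qq x J p) μ :=
        int_cont hD hμ.ae (huc.mul (qq_cont (ws_smooth h𝒩 hx) hJ))
      have i2 : Integrable (fun p => u p.proj * qq y J p) μ :=
        int_cont hD hμ.ae (huc.mul (qq_cont (ws_smooth h𝒩 hy) hJ))
      have e1 : ∀ p, u p.proj * qq (x + y) J p = u p.proj * qq x J p + u p.proj * qq y J p :=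
        fun p => by rw [qq_add]; ring
      simp_rw [e1]
      rw [integral_add i1 i2, h1, h2, add_zero]
    | smul a x hx h1 =>
      have e1 : ∀ p, u p.proj * qq (a • x) J p = a * (u p.proj * qq x J p) :=
        fun p => by rw [qq_smul]; ring
      simp_rw [e1]
      rw [integral_const_mul, h1, mul_zero]
  · rw [wt_int huc (fun p => hu0 p.proj)]
    exact hle

omit [T2Space X] in
/-- minimal carriers are indecomposable -/
theorem indec (hJ : IsAlmostComplex J) (h𝒩 : ∀ σ ∈ 𝒩, IsSmooth σ) (h𝒩' : ∀ σ ∈ 𝒩, NefOn J D σ)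
    (hζ : IsSmooth ζ) [T2Space (TangentBundle (𝓡 d) X)]
    (hD : IsCompact D) (hmin : ∀ D' ⊆ D, IsCompact D' → ¬ HasP J 𝒩 ζ D' → D' = D)
    (hμ : Cr J 𝒩 ζ D μ) {h : X → ℝ} (hh : Flat J D h) {x y : TangentBundle (𝓡 d) X}
    (hx : x ∈ D) (hy : y ∈ D) (hxy : h x.proj < h y.proj) : False := by
  have hfin := hμ.fin
  have hfull := fun (z : TangentBundle (𝓡 d) X) (hz : z ∈ D) =>
    full_support hJ h𝒩 hζ hD hmin hμ hz
  have hpr : Continuous (Bundle.TotalSpace.proj : TangentBundle (𝓡 d) X → X) :=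
    FiberBundle.continuous_proj (E d) (TangentSpace (𝓡 d))
  obtain ⟨a, ha1, ha2⟩ := exists_between hxy
  obtain ⟨b, hb1, hb2⟩ := exists_between ha2
  have hab : 0 < b - a := by linarith
  have hhc : Continuous (fun p : TangentBundle (𝓡 d) X => h p.proj) :=
    hh.1.continuous.comp hpr
  let φ : ℝ → ℝ := fun s => Real.smoothTransition ((s - a) / (b - a))
  have hφ : ContDiff ℝ ∞ φ :=
    Real.smoothTransition.contDiff.comp ((contDiff_id.sub contDiff_const).div_const _)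
  let ψ : ℝ → ℝ := fun s => 1 - φ s
  have hψ : ContDiff ℝ ∞ ψ := contDiff_const.sub hφ
  have hφ0 : ∀ s, 0 ≤ φ s := fun s => Real.smoothTransition.nonneg _
  have hφ1 : ∀ s, φ s ≤ 1 := fun s => Real.smoothTransition.le_one _
  have hψ0 : ∀ s, 0 ≤ ψ s := fun s => sub_nonneg.2 (hφ1 s)
  have hψ1 : ∀ s, ψ s ≤ 1 := fun s => sub_le_self _ (hφ0 s)
  have ku := hh.comp1 hφ
  have kv := hh.comp1 hψ
  have cu : Continuous fun z : TangentBundle (𝓡 d) X => φ (h z.proj) :=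
    hφ.continuous.comp hhc
  have cv : Continuous fun z : TangentBundle (𝓡 d) X => ψ (h z.proj) :=
    hψ.continuous.comp hhc
  have e1 : ∀ z : TangentBundle (𝓡 d) X, h z.proj ≤ a → φ (h z.proj) = 0 := fun z hz =>
    Real.smoothTransition.zero_of_nonpos (div_nonpos_of_nonpos_of_nonneg (by linarith) hab.le)
  have e2 : ∀ z : TangentBundle (𝓡 d) X, b ≤ h z.proj → φ (h z.proj) = 1 := fun z hz =>
    Real.smoothTransition.one_of_one_le ((one_le_div hab).2 (by linarith))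
  have pu : 0 < ∫ z, φ (h z.proj) ∂μ :=
    int_pos hD hμ.ae cu (fun z _ => hφ0 _) (p := y) (by rw [e2 y hb2.le]; exact one_pos)
      (hfull y hy)
  have pv : 0 < ∫ z, ψ (h z.proj) ∂μ :=
    int_pos hD hμ.ae cv (fun z _ => hψ0 _) (p := x) (by
      change 0 < 1 - φ (h x.proj)
      rw [e1 x ha1.le, sub_zero]
      exact one_pos) (hfull x hx)
  have hmc := qq_cont hζ hJ
  have hs : ∫ z, φ (h z.proj) * qq ζ J z ∂μ + ∫ z, ψ (h z.proj) * qq ζ J z ∂μ =
      ∫ z, qq ζ J z ∂μ := by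
    have i1 : Integrable (fun z => φ (h z.proj) * qq ζ J z) μ :=
      int_cont hD hμ.ae (cu.mul hmc)
    have i2 : Integrable (fun z => ψ (h z.proj) * qq ζ J z) μ :=
      int_cont hD hμ.ae (cv.mul hmc)
    rw [← integral_add i1 i2]
    refine integral_congr_ae (Eventually.of_forall fun z => ?_)
    change φ (h z.proj) * qq ζ J z + (1 - φ (h z.proj)) * qq ζ J z = qq ζ J z
    ring
  have hle := hμ.le
  rcases le_total (∫ z, φ (h z.proj) * qq ζ J z ∂μ) 0 with h0 | h0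
  · have h1 := Cr.wt hJ h𝒩 h𝒩' hD hμ (D' := D ∩ {z | a ≤ h z.proj}) ku
      (fun z => hφ0 (h z)) (fun z => hφ1 (h z))
      (fun z hz hne => ⟨hz, by
        by_contra hlt
        exact hne (e1 z (not_le.1 hlt).le)⟩) pu h0
    have hcp : IsCompact (D ∩ {z | a ≤ h z.proj}) :=
      hD.inter_right (isClosed_le continuous_const hhc)
    have h2 := hmin (D ∩ {z | a ≤ h z.proj}) inter_subset_left hcp
      (h1.not_hasP hJ h𝒩 hζ hcp)
    rw [← h2] at hx
    exact absurd hx.2 (not_le.2 ha1)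
  · have h1 := Cr.wt hJ h𝒩 h𝒩' hD hμ (D' := D ∩ {z | h z.proj ≤ b}) kv
      (fun z => hψ0 (h z)) (fun z => hψ1 (h z))
      (fun z hz hne => ⟨hz, by
        by_contra hlt
        refine hne ?_
        change 1 - φ (h z.proj) = 0
        rw [e2 z (not_le.1 hlt).le, sub_self]⟩) pv (by linarith)
    have hcp : IsCompact (D ∩ {z | h z.proj ≤ b}) :=
      hD.inter_right (isClosed_le hhc continuous_const)
    have h2 := hmin (D ∩ {z | h z.proj ≤ b}) inter_subset_left hcp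
      (h1.not_hasP hJ h𝒩 hζ hcp)
    rw [← h2] at hy
    exact absurd hy.2 (not_le.2 hb2)

end meas

end Pool.Agent.L7h49.TS
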