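import Pool.Agent.N13.TL.Thurston

/-!
# Two-forms as functions on the tangent bundle
-/

set_option autoImplicit false

open Set Filter Topology MeasureTheory
open scoped Manifold ContDiff Bundle

noncomputable section

namespace Pool.Agent.L7h49.TS

open Pool.Agent.Y501.SY
open Pool.Agent.N13.TL
open Pool.Agent.Y455.SY (A B AB BA Q_eq Q_cont)

variable {d : ℕ} {X : Type} [TopologicalSpace X] [ChartedSpace (E d) X]

/-- the function `σ(v, Jv)` on the tangent bundle -/
def qq (σ : Form d X 2) (J : End d X) (p : TangentBundle (𝓡 d) X) : ℝ := q σ J p.proj p.snd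

/-- the tangent bundle in a chart -/
def kap (x₀ : X) (p : TangentBundle (𝓡 d) X) : E d × E d :=
  (chartAt (E d) x₀ p.proj, mfderiv (𝓡 d) (𝓡 d) (chartAt (E d) x₀) p.proj p.snd)

theorem q_tr (σ : Form d X 2) (J : End d X) {x y : X} (h : y = x) (v : E d) :
    q σ J y v = q σ J x v := by
  subst h
  rfl

variable [IsManifold (𝓡 d) ∞ X]

theorem kap_cont (x₀ : X) :
    ContinuousOn (kap (d := d) x₀)
      (Bundle.TotalSpace.proj ⁻¹' (chartAt (E d) x₀).source : Set (TangentBundle (𝓡 d) X)) := by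
  have h1 : ContinuousOn (tangentMapWithin (𝓡 d) (𝓡 d) (chartAt (E d) x₀)
      (chartAt (E d) x₀).source) (Bundle.TotalSpace.proj ⁻¹' (chartAt (E d) x₀).source) :=
    (contMDiffOn_chart (I := 𝓡 d) (n := ∞) (x := x₀)).continuousOn_tangentMapWithin (by simp)
      (chartAt (E d) x₀).open_source.uniqueMDiffOn
  have h2 := (tangentBundleModelSpaceHomeomorph (𝓡 d)).continuous.comp_continuousOn h1
  refine ContinuousOn.congr (f := fun p => (tangentBundleModelSpaceHomeomorph (𝓡 d))
    (tangentMapWithin (𝓡 d) (𝓡 d) (chartAt (E d) x₀) (chartAt (E d) x₀).source p)) h2 ?_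
  intro p hp
  have h3 : mfderivWithin (𝓡 d) (𝓡 d) (chartAt (E d) x₀) (chartAt (E d) x₀).source p.proj =
      mfderiv (𝓡 d) (𝓡 d) (chartAt (E d) x₀) p.proj :=
    mfderivWithin_of_isOpen (chartAt (E d) x₀).open_source hp
  show (chartAt (E d) x₀ p.proj, mfderiv (𝓡 d) (𝓡 d) (chartAt (E d) x₀) p.proj p.snd) =
    (chartAt (E d) x₀ p.proj, mfderivWithin (𝓡 d) (𝓡 d) (chartAt (E d) x₀)
      (chartAt (E d) x₀).source p.proj p.snd)
  rw [h3]

theorem A_kap (x₀ : X) {p : TangentBundle (𝓡 d) X} (hp : p.proj ∈ (chartAt (E d) x₀).source) :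
    A x₀ (kap x₀ p).1 (kap x₀ p).2 = p.snd :=
  DFunLike.congr_fun ((mdifferentiable_chart (I := 𝓡 d) x₀).symm_comp_deriv hp) p.snd

theorem Q_kap (x₀ : X) (σ : Form d X 2) (J : End d X) {p : TangentBundle (𝓡 d) X}
    (hp : p.proj ∈ (chartAt (E d) x₀).source) :
    Pool.Agent.Y455.SY.Q σ J x₀ (kap x₀ p).1 (kap x₀ p).2 = qq σ J p := by
  have h1 : (kap x₀ p).1 ∈ (chartAt (E d) x₀).target := (chartAt (E d) x₀).map_source hp
  rw [Q_eq σ J x₀ h1]
  have h2 := A_kap x₀ hp
  have h3 : (chartAt (E d) x₀).symm (kap x₀ p).1 = p.proj := (chartAt (E d) x₀).left_inv hp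
  have h4 := q_tr σ J h3 (A x₀ (kap x₀ p).1 (kap x₀ p).2)
  refine Eq.trans h4 ?_
  exact congrArg (fun v : E d => q σ J p.proj v) h2

theorem qq_cont {σ : Form d X 2} (hσ : IsSmooth σ) {J : End d X} (hJ : IsAlmostComplex J) :
    Continuous (qq σ J) := by
  rw [continuous_iff_continuousAt]
  intro p₀
  have hs : p₀.proj ∈ (chartAt (E d) p₀.proj).source := mem_chart_source (E d) p₀.proj
  have hopen : IsOpen (Bundle.TotalSpace.proj ⁻¹' (chartAt (E d) p₀.proj).source :
      Set (TangentBundle (𝓡 d) X)) :=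
    (chartAt (E d) p₀.proj).open_source.preimage
      (FiberBundle.continuous_proj (E d) (TangentSpace (𝓡 d)))
  have h1 : ContinuousAt (kap (d := d) p₀.proj) p₀ :=
    (kap_cont p₀.proj).continuousAt (hopen.mem_nhds hs)
  have h2 : ContinuousAt (fun z : E d × E d => Pool.Agent.Y455.SY.Q σ J p₀.proj z.1 z.2)
      (kap p₀.proj p₀) := Q_cont hσ hJ p₀.proj ((chartAt (E d) p₀.proj).map_source hs)
  refine (ContinuousAt.comp h2 h1).congr ?_
  filter_upwards [hopen.mem_nhds hs] with p hp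
  exact Q_kap p₀.proj σ J hp

theorem tb_t2 [T2Space X] : T2Space (TangentBundle (𝓡 d) X) := by
  refine ⟨fun p p' hne => ?_⟩
  have hpr : Continuous (Bundle.TotalSpace.proj : TangentBundle (𝓡 d) X → X) :=
    FiberBundle.continuous_proj (E d) (TangentSpace (𝓡 d))
  by_cases h : p.proj = p'.proj
  · have hs : p.proj ∈ (chartAt (E d) p.proj).source := mem_chart_source (E d) p.proj
    have hs' : p'.proj ∈ (chartAt (E d) p.proj).source := by rw [← h]; exact hs
    have hopen : IsOpen (Bundle.TotalSpace.proj ⁻¹' (chartAt (E d) p.proj).source :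
        Set (TangentBundle (𝓡 d) X)) := (chartAt (E d) p.proj).open_source.preimage hpr
    have hk : kap p.proj p ≠ kap p.proj p' := by
      intro hk
      apply hne
      obtain ⟨x, v⟩ := p
      obtain ⟨x', v'⟩ := p'
      change x = x' at h
      subst h
      have e1 := A_kap x (p := (⟨x, v⟩ : TangentBundle (𝓡 d) X)) hs
      have e2 := A_kap x (p := (⟨x, v'⟩ : TangentBundle (𝓡 d) X)) hs
      change kap x (⟨x, v⟩ : TangentBundle (𝓡 d) X) = kap x (⟨x, v'⟩ : TangentBundle (𝓡 d) X) at hk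
      rw [hk] at e1
      have e3 : v = v' := e1.symm.trans e2
      rw [e3]
    obtain ⟨u, u', hu, hu', h1, h2, h3⟩ := t2_separation hk
    refine ⟨_, _, (kap_cont p.proj).isOpen_inter_preimage hopen hu,
      (kap_cont p.proj).isOpen_inter_preimage hopen hu', ⟨hs, h1⟩, ⟨hs', h2⟩, ?_⟩
    exact Set.disjoint_left.2 fun z hz hz' => (Set.disjoint_left.1 h3) hz.2 hz'.2
  · obtain ⟨u, u', hu, hu', h1, h2, h3⟩ := t2_separation h
    exact ⟨_, _, hu.preimage hpr, hu'.preimage hpr, h1, h2, h3.preimage _⟩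

/-- a chart of the tangent bundle, backwards -/
def ph (x₀ : X) (z : E d × E d) : TangentBundle (𝓡 d) X :=
  ⟨(chartAt (E d) x₀).symm z.1, A x₀ z.1 z.2⟩

theorem ph_cont (x₀ : X) :
    ContinuousOn (ph (d := d) x₀) ((chartAt (E d) x₀).target ×ˢ univ) := by
  have h1 : ContinuousOn (tangentMapWithin (𝓡 d) (𝓡 d) (chartAt (E d) x₀).symm
      (chartAt (E d) x₀).target) (Bundle.TotalSpace.proj ⁻¹' (chartAt (E d) x₀).target) :=
    (contMDiffOn_chart_symm (I := 𝓡 d) (n := ∞) (x := x₀)).continuousOn_tangentMapWithin (by simp)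
      (chartAt (E d) x₀).open_target.uniqueMDiffOn
  have h2 : ContinuousOn (fun z : E d × E d => tangentMapWithin (𝓡 d) (𝓡 d) (chartAt (E d) x₀).symm
      (chartAt (E d) x₀).target ((tangentBundleModelSpaceHomeomorph (𝓡 d)).symm z))
      ((chartAt (E d) x₀).target ×ˢ univ) := by
    refine h1.comp ?_ ?_
    · exact (tangentBundleModelSpaceHomeomorph (𝓡 d)).symm.continuous.continuousOn
    · intro z hz
      exact hz.1
  refine h2.congr fun z hz => ?_
  have h3 : mfderivWithin (𝓡 d) (𝓡 d) (chartAt (E d) x₀).symm (chartAt (E d) x₀).target z.1 =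
      mfderiv (𝓡 d) (𝓡 d) (chartAt (E d) x₀).symm z.1 :=
    mfderivWithin_of_isOpen (chartAt (E d) x₀).open_target hz.1
  show (⟨(chartAt (E d) x₀).symm z.1, mfderiv (𝓡 d) (𝓡 d) (chartAt (E d) x₀).symm z.1 z.2⟩ :
    TangentBundle (𝓡 d) X) = ⟨(chartAt (E d) x₀).symm z.1,
      mfderivWithin (𝓡 d) (𝓡 d) (chartAt (E d) x₀).symm (chartAt (E d) x₀).target z.1 z.2⟩
  rw [h3]

theorem ph_kap (x₀ : X) {p : TangentBundle (𝓡 d) X}
    (hp : p.proj ∈ (chartAt (E d) x₀).source) : ph x₀ (kap x₀ p) = p := by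
  have h1 := A_kap x₀ hp
  have h2 : (chartAt (E d) x₀).symm (kap x₀ p).1 = p.proj := (chartAt (E d) x₀).left_inv hp
  have key : ∀ (x : X) (v : E d), x = p.proj → v = p.snd →
      (⟨x, v⟩ : TangentBundle (𝓡 d) X) = p := by
    rintro x v rfl rfl
    rfl
  exact key _ _ h2 h1

/-- the unit vectors are a compact set -/
theorem unit_compact [CompactSpace X] [T2Space X] {J : End d X} (hJ : IsAlmostComplex J)
    {τ : Form d X 2} (hτ : IsSmooth τ) (hτt : ∀ x, TamesAt τ J x) :
    IsCompact {p : TangentBundle (𝓡 d) X | qq τ J p = 1} := by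
  have hT2 := tb_t2 (d := d) (X := X)
  have hcl : IsClosed {p : TangentBundle (𝓡 d) X | qq τ J p = 1} :=
    isClosed_eq (qq_cont hτ hJ) continuous_const
  obtain ⟨K, hK, hsub⟩ : ∃ K : Set (TangentBundle (𝓡 d) X), IsCompact K ∧
      ∀ p : TangentBundle (𝓡 d) X, p.proj ∈ (univ : Set X) → qq τ J p = 1 → p ∈ K := by
    refine (isCompact_univ (X := X)).induction_on
      (p := fun s => ∃ K : Set (TangentBundle (𝓡 d) X), IsCompact K ∧
        ∀ p : TangentBundle (𝓡 d) X, p.proj ∈ s → qq τ J p = 1 → p ∈ K) ?_ ?_ ?_ ?_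
    · exact ⟨∅, isCompact_empty, fun p hp => absurd hp (notMem_empty _)⟩
    · rintro s t hst ⟨K, hK, h⟩
      exact ⟨K, hK, fun p hp => h p (hst hp)⟩
    · rintro s t ⟨K, hK, h⟩ ⟨K', hK', h'⟩
      refine ⟨K ∪ K', hK.union hK', fun p hp hq => ?_⟩
      rcases hp with hp | hp
      · exact Or.inl (h p hp hq)
      · exact Or.inr (h' p hp hq)
    · intro x _
      obtain ⟨r, hr, hball⟩ := Metric.nhds_basis_closedBall.mem_iff.1
        ((chartAt (E d) x).open_target.mem_nhds (mem_chart_target (E d) x))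
      have hKc := isCompact_closedBall (chartAt (E d) x x) r
      obtain ⟨c, hc, hc'⟩ := (Pool.Agent.Y44.SY.t_QB d X J hJ τ hτ x _ hKc hball).2
        fun p _ => hτt _
      refine ⟨(chartAt (E d) x).source ∩ chartAt (E d) x ⁻¹'
          Metric.closedBall (chartAt (E d) x x) r, mem_nhdsWithin_of_mem_nhds ?_,
        ph x '' (Metric.closedBall (chartAt (E d) x x) r ×ˢ Metric.closedBall (0 : E d) (√c)⁻¹),
        ?_, fun p hp hq => ?_⟩
      · exact inter_mem ((chartAt (E d) x).open_source.mem_nhds (mem_chart_source (E d) x))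
          (((chartAt (E d) x).continuousAt (mem_chart_source (E d) x)).preimage_mem_nhds
            (Metric.closedBall_mem_nhds _ hr))
      · refine (hKc.prod (isCompact_closedBall _ _)).image_of_continuousOn
          ((ph_cont x).mono (prod_mono hball (subset_univ _)))
      · refine ⟨kap x p, ⟨hp.2, ?_⟩, ph_kap x hp.1⟩
        rw [mem_closedBall_zero_iff]
        have h1 := hc' (kap x p).1 hp.2 (kap x p).2
        have h2 : pb (chartAt (E d) x).symm τ (kap x p).1
            ![(kap x p).2, inChart J x (kap x p).1 (kap x p).2] = 1 := by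
          have h3 := Q_kap x τ J hp.1
          rw [hq] at h3
          exact h3
        rw [h2] at h1
        have hsc : 0 < √c := Real.sqrt_pos.2 hc
        rw [← one_div, le_div_iff₀ hsc]
        have h4 : (‖(kap x p).2‖ * √c) ^ 2 ≤ 1 := by
          rw [mul_pow, Real.sq_sqrt hc.le, mul_comm]
          exact h1
        exact (sq_le_one_iff₀ (by positivity)).1 h4
  exact hK.of_isClosed_subset hcl fun p hp => hsub p (mem_univ _) hp

end Pool.Agent.L7h49.TS
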