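import Pool.Agent.L7h49.TS.Carr

/-!
# Minimal carriers are nowhere small
-/

set_option autoImplicit false

open Set Filter Topology MeasureTheory
open scoped Manifold ContDiff Bundle ENNReal NNReal

noncomputable section

namespace Pool.Agent.L7h49.TS

open Pool.Agent.Y501.SY
open Pool.Agent.N13.TL
open Pool.Agent.R772 (ExactF sep_measure approx errF errF_smooth)

section tr

variable {d : ℕ} {X : Type} [TopologicalSpace X] [ChartedSpace (E d) X]

/-- finitely many functions vanishing on `C` detect the vectors which are not tangent to `C`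
together with their image under `J` -/
theorem finite_rel (J : End d X) (C : Set X) (z : X) :
    ∃ (n : ℕ) (g : Fin n → X → ℝ), (∀ i, SmoothFun (d := d) (g i)) ∧ (∀ i, ∀ x ∈ C, g i x = 0) ∧
      ∀ v : TangentSpace (𝓡 d) z, (∀ i, dd (d := d) (g i) z v = 0 ∧
        dd (d := d) (g i) z (J z v) = 0) → v ∈ ZT (d := d) C z ∧ J z v ∈ ZT (d := d) C z := by
  let α : (X → ℝ) → E d →L[ℝ] ℝ := fun g => dd (d := d) g z
  let J₀ : E d →L[ℝ] E d := J z
  let T : Submodule ℝ (E d) :=
    { carrier := {v | ∀ g : X → ℝ, SmoothFun (d := d) g → (∀ x ∈ C, g x = 0) →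
        α g v = 0 ∧ α g (J₀ v) = 0}
      add_mem' := fun {a b} ha hb g hg hgC => by
        obtain ⟨h1, h2⟩ := ha g hg hgC
        obtain ⟨h3, h4⟩ := hb g hg hgC
        exact ⟨by rw [map_add, h1, h3, add_zero], by rw [map_add, map_add, h2, h4, add_zero]⟩
      zero_mem' := fun g hg hgC => ⟨by rw [map_zero], by rw [map_zero, map_zero]⟩
      smul_mem' := fun c a ha g hg hgC => by
        obtain ⟨h1, h2⟩ := ha g hg hgC
        exact ⟨by rw [map_smul, h1, smul_zero], by rw [map_smul, map_smul, h2, smul_zero]⟩ }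
  obtain ⟨W, hW⟩ := T.exists_isCompl
  obtain ⟨n, g, hg, hgC, hgk⟩ := Pool.Agent.Y388.SY.finite_family J C z (Module.finrank ℝ W) W
    le_rfl (by
      intro v hv h
      have h1 : v ∈ T ⊓ W := ⟨fun g hg hgC => h g hg hgC, hv⟩
      rw [hW.inf_eq_bot] at h1
      exact (Submodule.mem_bot ℝ).1 h1)
  refine ⟨n, g, hg, hgC, fun v hv => ?_⟩
  have hdec : ∀ u : E d, ∃ t ∈ T, ∃ w ∈ W, t + w = u := fun u => by
    have h1 : u ∈ T ⊔ W := by
      rw [hW.sup_eq_top]
      exact Submodule.mem_top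
    exact Submodule.mem_sup.1 h1
  obtain ⟨t, ht, w, hw, htw⟩ := hdec v
  have hw0 : w = 0 := by
    refine hgk w hw fun i => ?_
    obtain ⟨h1, h2⟩ := hv i
    obtain ⟨h3, h4⟩ := ht (g i) (hg i) (hgC i)
    have e1 : α (g i) (t + w) = 0 := by
      rw [htw]
      exact h1
    have e2 : α (g i) (J₀ (t + w)) = 0 := by
      rw [htw]
      exact h2
    rw [map_add, h3, zero_add] at e1
    rw [map_add, map_add, h4, zero_add] at e2
    exact ⟨e1, e2⟩
  have hvt : t = v := by rw [← htw, hw0, add_zero]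
  subst hvt
  exact ⟨fun g hg hgC => (ht g hg hgC).1, fun g hg hgC => (ht g hg hgC).2⟩

theorem tr_rel [IsManifold (𝓡 d) ∞ X] [T2Space X] {J : End d X} (hJ : IsAlmostComplex J)
    (C : Set X) (z : X) :
    ∃ (n : ℕ) (a b : Fin n → X → ℝ), (∀ i, SmoothFun (d := d) (a i)) ∧
      (∀ i, SmoothFun (d := d) (b i)) ∧
      (∀ i, volume ((fun x => (a i x, b i x)) '' C) = 0) ∧
      ∀ v : TangentSpace (𝓡 d) z, ¬ (v ∈ ZT (d := d) C z ∧ J z v ∈ ZT (d := d) C z) →
        0 < (∑ i, dfdg (a i) (b i)) z ![v, J z v] := by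
  classical
  let c := chartAt (E d) z
  have hzs : z ∈ c.source := mem_chart_source (E d) z
  have hcd : c.MDifferentiable (𝓡 d) (𝓡 d) := mdifferentiable_chart (I := 𝓡 d) z
  let A : TangentSpace (𝓡 d) z ≃L[ℝ] E d := hcd.mfderiv hzs
  obtain ⟨b⟩ : Nonempty (SmoothBumpFunction (𝓡 d) z) := inferInstance
  let F : X → E d := fun x => b x • c x
  have hF : ContMDiff (𝓡 d) 𝓘(ℝ, E d) ∞ F := b.contMDiff_smul (contMDiffOn_chart (I := 𝓡 d))
  have hFc : F =ᶠ[𝓝 z] c := by
    filter_upwards [b.eventuallyEq_one] with x hx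
    change b x • c x = c x
    rw [hx]
    exact one_smul ℝ (c x)
  let G : Fin d → X → ℝ := fun j x => F x j
  have hG : ∀ j, SmoothFun (d := d) (G j) := by
    intro j
    exact ((EuclideanSpace.proj (𝕜 := ℝ) j : E d →L[ℝ] ℝ).contDiff.contMDiff).comp hF
  have hcdz : MDifferentiableAt (𝓡 d) 𝓘(ℝ, E d) c z := hcd.mdifferentiableAt hzs
  have hdG : ∀ j (v : TangentSpace (𝓡 d) z), dd (G j) z v = (A v) j := by
    intro j v
    have e1 : G j =ᶠ[𝓝 z] (EuclideanSpace.proj (𝕜 := ℝ) j : E d →L[ℝ] ℝ) ∘ c := by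
      filter_upwards [hFc] with x hx
      change F x j = c x j
      rw [hx]
    unfold dd
    rw [e1.mfderiv_eq, mfderiv_comp z
      ((EuclideanSpace.proj (𝕜 := ℝ) j : E d →L[ℝ] ℝ).contDiff.contMDiff.mdifferentiableAt
        (n := 1) one_ne_zero) hcdz,
      mfderiv_eq_fderiv, ContinuousLinearMap.fderiv]
    rfl
  -- the finitely many functions
  obtain ⟨n, g, hg, hgC, hgk⟩ := finite_rel J C z
  -- coefficients
  let lam : Fin n → TangentSpace (𝓡 d) z → ℝ := fun j v => - dd (g j) z (J z v)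
  let cf : Fin n → Fin d → ℝ := fun j k => lam j (A.symm (EuclideanSpace.single k (1 : ℝ)))
  have hlam : ∀ j v, ∑ k, cf j k * (A v) k = lam j v := by
    intro j v
    have e1 : v = ∑ k, (A v) k • A.symm (EuclideanSpace.single k (1 : ℝ)) := by
      apply A.injective
      rw [map_sum]
      have e2 : ∀ k, A ((A v) k • A.symm (EuclideanSpace.single k (1 : ℝ))) =
          (A v) k • (EuclideanSpace.single k (1 : ℝ) : E d) := by
        intro k
        rw [map_smul, A.apply_symm_apply]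
      rw [Finset.sum_congr rfl fun k _ => e2 k]
      ext i
      simp [Finset.sum_apply, Pi.single_apply]
    conv_rhs => rw [e1]
    change _ = - dd (g j) z (J z (∑ k, (A v) k • A.symm (EuclideanSpace.single k (1 : ℝ))))
    rw [map_sum, map_sum, ← Finset.sum_neg_distrib]
    refine Finset.sum_congr rfl fun k _ => ?_
    rw [map_smul, map_smul]
    change - dd (g j) z (J z (A.symm (EuclideanSpace.single k (1 : ℝ)))) * (A v) k =
      - ((A v) k * dd (g j) z (J z (A.symm (EuclideanSpace.single k (1 : ℝ)))))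
    ring
  let e : Fin (n * d) ≃ Fin n × Fin d := finProdFinEquiv.symm
  let aa : Fin n × Fin d → X → ℝ := fun q x => cf q.1 q.2 * g q.1 x
  let bb : Fin n × Fin d → X → ℝ := fun q x => G q.2 x
  have haa : ∀ q, SmoothFun (d := d) (aa q) := fun q => (SmoothFun.const _).mul (hg q.1)
  refine ⟨n * d, fun i => aa (e i), fun i => bb (e i), fun i => haa _,
    fun i => hG _, ?_, ?_⟩
  · intro i
    have h1 : (fun x => (aa (e i) x, bb (e i) x)) '' C ⊆ ({0} : Set ℝ) ×ˢ (univ : Set ℝ) := by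
      rintro _ ⟨x, hx, rfl⟩
      refine ⟨?_, mem_univ _⟩
      change cf (e i).1 (e i).2 * g (e i).1 x = 0
      rw [hgC _ x hx, mul_zero]
    refine measure_mono_null h1 ?_
    rw [Measure.volume_eq_prod, Measure.prod_prod, Real.volume_singleton, zero_mul]
  · intro v hv
    have hdaa : ∀ q (w : TangentSpace (𝓡 d) z), dd (aa q) z w = cf q.1 q.2 * dd (g q.1) z w := by
      intro q w
      have h1 := dd_mul (SmoothFun.const (d := d) (X := X) (cf q.1 q.2)) (hg q.1) z w
      have h2 : dd (d := d) (fun _ : X => cf q.1 q.2) z w = 0 := by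
        unfold dd
        rw [mfderiv_const]
        rfl
      rw [h2, mul_zero, add_zero] at h1
      exact h1
    have h1 : (∑ i, dfdg (d := d) (aa (e i)) (bb (e i))) z ![v, J z v] =
        ∑ j, ((dd (g j) z v) ^ 2 + (dd (g j) z (J z v)) ^ 2) := by
      rw [sum_apply2]
      have h2 : ∀ q, dfdg (d := d) (aa q) (bb q) z ![v, J z v] =
          dd (g q.1) z v * (cf q.1 q.2 * (A (J z v)) q.2) -
            dd (g q.1) z (J z v) * (cf q.1 q.2 * (A v) q.2) := by
        intro q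
        rw [dfdg_apply, hdaa, hdaa]
        change cf q.1 q.2 * dd (g q.1) z v * dd (G q.2) z (J z v) -
          cf q.1 q.2 * dd (g q.1) z (J z v) * dd (G q.2) z v = _
        rw [hdG, hdG]
        ring
      rw [Equiv.sum_comp e fun q => dfdg (d := d) (aa q) (bb q) z ![v, J z v],
        Finset.sum_congr rfl fun q _ => h2 q, Fintype.sum_prod_type]
      refine Finset.sum_congr rfl fun j _ => ?_
      simp only
      rw [Finset.sum_sub_distrib, ← Finset.mul_sum, ← Finset.mul_sum, hlam, hlam]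
      change dd (g j) z v * (- dd (g j) z (J z (J z v))) -
        dd (g j) z (J z v) * (- dd (g j) z (J z v)) = _
      rw [hJ.sq, map_neg]
      ring
    rw [h1]
    have h3 : ∃ j, ¬ (dd (g j) z v = 0 ∧ dd (g j) z (J z v) = 0) := by
      by_contra h
      push Not at h
      exact hv (hgk v h)
    obtain ⟨j, hj⟩ := h3
    refine Finset.sum_pos' (fun k _ => by positivity) ⟨j, Finset.mem_univ _, ?_⟩
    by_cases h5 : dd (g j) z v = 0
    · have h6 : dd (g j) z (J z v) ≠ 0 := fun h7 => hj ⟨h5, h7⟩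
      positivity
    · positivity

end tr

section

variable {d : ℕ} {X : Type} [TopologicalSpace X] [ChartedSpace (E d) X]

/-- the set of base points -/
def bs (D : Set (TangentBundle (𝓡 d) X)) : Set X := Bundle.TotalSpace.proj '' D

/-- `D` is thin at `z` -/
def ThinD (J : End d X) (D : Set (TangentBundle (𝓡 d) X)) (z : X) : Prop :=
  ∃ (n : ℕ) (a b : Fin n → X → ℝ) (N : Set X), N ∈ 𝓝 z ∧ (∀ i, SmoothFun (d := d) (a i)) ∧
    (∀ i, SmoothFun (d := d) (b i)) ∧
    (∀ i, volume ((fun x => (a i x, b i x)) '' (bs D ∩ N)) = 0) ∧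
    ∀ p ∈ D, p.proj = z → 0 < qq (∑ i, dfdg (a i) (b i)) J p

/-- `D` is small at `z` -/
def SmallD (J : End d X) (D : Set (TangentBundle (𝓡 d) X)) (z : X) : Prop :=
  (∃ N ∈ 𝓝 z, μH[2] (chartAt (E d) z '' (bs D ∩ N ∩ (chartAt (E d) z).source)) = 0) ∨
  (∀ p ∈ D, p.proj = z → ¬ (p.snd ∈ ZT (d := d) (bs D) p.proj ∧
    J p.proj p.snd ∈ ZT (d := d) (bs D) p.proj)) ∨ ThinD J D z

theorem qq_congr {σ θ : Form d X 2} {J : End d X} {p : TangentBundle (𝓡 d) X}
    (h : σ p.proj = θ p.proj) : qq σ J p = qq θ J p := by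
  unfold qq q
  rw [h]

theorem qq_sum {ι : Type} (s : Finset ι) (t : ι → ℝ) (e : ι → Form d X 2) (J : End d X)
    (p : TangentBundle (𝓡 d) X) : qq (∑ k ∈ s, t k • e k) J p = ∑ k ∈ s, t k * qq (e k) J p := by
  have h := sum_apply2 (d := d) (X := X) s (fun k => t k • e k) p.proj ![p.snd, J p.proj p.snd]
  exact h

variable [IsManifold (𝓡 d) ∞ X] [T2Space X]

theorem SmallD.thin {J : End d X} (hJ : IsAlmostComplex J) {D : Set (TangentBundle (𝓡 d) X)}
    (hD0 : ∀ p ∈ D, p.snd ≠ 0) {z : X} (h : SmallD J D z) : ThinD J D z := by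
  rcases h with h | h | h
  · have h1 : ThinAt2 0 0 J (bs D) z := SmallAt2.thinAt2 hJ (Or.inl h)
    obtain ⟨n, a, b, N, hN, ha, hb, hnull, hpos⟩ := h1
    refine ⟨n, a, b, N, hN, ha, hb, hnull, ?_⟩
    rintro ⟨x, v⟩ hp hx
    change x = z at hx
    subst hx
    exact hpos v (hD0 _ hp) rfl rfl
  · obtain ⟨n, a, b, ha, hb, hnull, hpos⟩ := tr_rel hJ (bs D) z
    refine ⟨n, a, b, univ, univ_mem, ha, hb, fun i => by rw [inter_univ]; exact hnull i, ?_⟩
    rintro ⟨x, v⟩ hp hx
    change x = z at hx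
    subst hx
    exact hpos v (h _ hp rfl)
  · exact h

variable [MeasurableSpace (TangentBundle (𝓡 d) X)]
  [BorelSpace (TangentBundle (𝓡 d) X)] {J : End d X} {𝒩 : Set (Form d X 2)} {ζ : Form d X 2}
  {D : Set (TangentBundle (𝓡 d) X)} {μ : Measure (TangentBundle (𝓡 d) X)}

omit [T2Space X] in
/-- closed currents do not see forms with null images -/
theorem thin_zero (hJ : IsAlmostComplex J) (hD : IsCompact D) (hμ : Cr J 𝒩 ζ D μ)
    {ι : Type} [Fintype ι] (c a b : ι → X → ℝ) (M : ι → Set X) (hM : ∀ i, IsClosed (M i))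
    (hcM : ∀ i x, c i x ≠ 0 → x ∈ M i)
    (hc : ∀ i, SmoothFun (d := d) (c i)) (ha : ∀ i, SmoothFun (d := d) (a i))
    (hb : ∀ i, SmoothFun (d := d) (b i))
    (hnull : ∀ i, volume ((fun x => (a i x, b i x)) '' (bs D ∩ M i)) = 0) :
    ∫ p, qq (∑ i, hdfdg (c i) (a i) (b i)) J p ∂μ = 0 := by
  have hfin := hμ.fin
  have hG := Pool.Agent.Y484.SY.t_GEN
  have hpr : Continuous (Bundle.TotalSpace.proj : TangentBundle (𝓡 d) X → X) :=
    FiberBundle.continuous_proj (E d) (TangentSpace (𝓡 d))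
  have hK : IsCompact (bs D) := hD.image hpr
  have hts : IsSmooth (∑ i, hdfdg (d := d) (c i) (a i) (b i)) :=
    IsSmooth.sum _ fun i _ => (hG d X (c i) (a i) (b i) (hc i) (ha i) (hb i)).2.1
  have hes : ∀ k, Continuous (qq (errF c a b k) J) := fun k =>
    qq_cont (errF_smooth hc ha hb k) hJ
  have hE : Continuous fun p => ∑ k, |qq (errF c a b k) J p| :=
    continuous_finsetSum _ fun k _ => (hes k).abs
  have key : ∀ ε : ℝ, 0 < ε → |∫ p, qq (∑ i, hdfdg (c i) (a i) (b i)) J p ∂μ| ≤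
      ε * ∫ p, ∑ k, |qq (errF c a b k) J p| ∂μ := by
    intro ε hε
    obtain ⟨α, η, t, hp, ht, hη⟩ := approx hK c a b M hM hcM hc ha hb hnull hε
    obtain ⟨p1, p2, p3, p4⟩ := Pair.props hG hp
    have h0 := hμ.orth η (exactF_mem ⟨α, p1, p2, p3⟩)
    have h1 : ∫ p, qq (∑ i, hdfdg (c i) (a i) (b i)) J p ∂μ =
        ∫ p, (qq (∑ i, hdfdg (c i) (a i) (b i)) J p - qq η J p) ∂μ := by
      rw [integral_sub (int_cont hD hμ.ae (qq_cont hts hJ)) (int_cont hD hμ.ae (qq_cont p2 hJ)),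
        h0, sub_zero]
    rw [h1, ← integral_const_mul]
    have hint : Integrable (fun p => ε * ∑ k, |qq (errF c a b k) J p|) μ :=
      int_cont hD hμ.ae (continuous_const.mul hE)
    rw [← Real.norm_eq_abs]
    refine norm_integral_le_of_norm_le (μ := μ)
      (f := fun p => qq (∑ i, hdfdg (c i) (a i) (b i)) J p - qq η J p) hint ?_
    filter_upwards [hμ.ae] with p hp
    have hpK : p.proj ∈ bs D := ⟨p, hp, rfl⟩
    have h2 : qq η J p = qq (∑ i, hdfdg (c i) (a i) (b i)) J p +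
        ∑ k, t p.proj k * qq (errF c a b k) J p := by
      rw [qq_congr (hη p.proj hpK), qq_add, qq_sum]
    rw [h2, sub_add_cancel_left, norm_neg, Real.norm_eq_abs, Finset.mul_sum]
    refine (Finset.abs_sum_le_sum_abs _ _).trans (Finset.sum_le_sum fun k _ => ?_)
    rw [abs_mul]
    exact mul_le_mul_of_nonneg_right (ht p.proj k) (abs_nonneg _)
  have hB : 0 ≤ ∫ p, ∑ k, |qq (errF c a b k) J p| ∂μ :=
    integral_nonneg fun x => Finset.sum_nonneg fun k _ => abs_nonneg _
  by_contra hne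
  have hpos := abs_pos.2 hne
  set A := |∫ p, qq (∑ i, hdfdg (c i) (a i) (b i)) J p ∂μ| with hA
  set B := ∫ p, ∑ k, |qq (errF c a b k) J p| ∂μ with hB'
  have h1 := key (A / (2 * (B + 1))) (by positivity)
  have h2 : A / (2 * (B + 1)) * B < A := by
    rw [div_mul_eq_mul_div, div_lt_iff₀ (by positivity)]
    nlinarith
  linarith

/-- a carrier with full support has no thin points -/
theorem not_thin (hJ : IsAlmostComplex J) (hD : IsCompact D) (hμ : Cr J 𝒩 ζ D μ)
    (hfull : ∀ p ∈ D, ∀ U : Set (TangentBundle (𝓡 d) X), IsOpen U → p ∈ U → μ U ≠ 0)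
    {z : X} (hz : z ∈ bs D) (hth : ThinD J D z) : False := by
  have hT2 := tb_t2 (d := d) (X := X)
  have hfin := hμ.fin
  have hG := Pool.Agent.Y484.SY.t_GEN
  have hpr : Continuous (Bundle.TotalSpace.proj : TangentBundle (𝓡 d) X → X) :=
    FiberBundle.continuous_proj (E d) (TangentSpace (𝓡 d))
  obtain ⟨n, a, b, N, hNz, ha, hb, hnull, hposz⟩ := hth
  obtain ⟨p₀, hp₀, hpz⟩ := hz
  have h2 : ∀ i, hdfdg (d := d) (fun _ => (1 : ℝ)) (a i) (b i) = dfdg (a i) (b i) := by
    intro i; funext x; exact one_smul ℝ _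
  have hts : IsSmooth (∑ i, dfdg (d := d) (a i) (b i)) := by
    refine IsSmooth.sum _ fun i _ => ?_
    have := (hG d X (fun _ => 1) (a i) (b i) (SmoothFun.const 1) (ha i) (hb i)).2.1
    rwa [h2] at this
  have hcont := qq_cont hts hJ
  have hbad : IsCompact (D ∩ {p | qq (∑ i, dfdg (a i) (b i)) J p ≤ 0}) :=
    hD.inter_right (isClosed_le hcont continuous_const)
  have hnear : (bs (D ∩ {p | qq (∑ i, dfdg (a i) (b i)) J p ≤ 0}))ᶜ ∈ 𝓝 z := by
    refine (hbad.image hpr).isClosed.isOpen_compl.mem_nhds ?_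
    rintro ⟨p, ⟨hp, hp2⟩, hpz'⟩
    exact absurd (hposz p hp hpz') (not_lt.2 hp2)
  obtain ⟨f, hf⟩ := (SmoothBumpFunction.nhds_basis_support (I := 𝓡 d)
    (Filter.inter_mem hnear hNz)).ex_mem
  have hfs : SmoothFun (d := d) (fun x => f x) := f.contMDiff
  have h3 := thin_zero hJ hD hμ (fun _ : Fin n => fun x => f x) a b
    (fun _ => tsupport f) (fun _ => isClosed_tsupport f) (fun _ y hy => subset_tsupport _ hy)
    (fun _ => hfs) ha hb (fun i => by
      refine measure_mono_null ?_ (hnull i)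
      exact image_mono (inter_subset_inter_right _ (fun y hy => (hf hy).2)))
  have h4 : ∀ p, qq (∑ i : Fin n, hdfdg (fun x => f x) (a i) (b i)) J p =
      f p.proj * qq (∑ i, dfdg (d := d) (a i) (b i)) J p := by
    intro p
    have e1 : ∀ i, hdfdg (d := d) (fun x => f x) (a i) (b i) p.proj =
      f p.proj • dfdg (d := d) (a i) (b i) p.proj := fun i => rfl
    have e2 : (∑ i : Fin n, hdfdg (fun x => f x) (a i) (b i) : Form d X 2) p.proj =
        ((f p.proj) • (∑ i, dfdg (d := d) (a i) (b i)) : Form d X 2) p.proj := by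
      rw [Finset.sum_apply, Finset.sum_congr rfl fun i _ => e1 i, ← Finset.smul_sum,
        Pi.smul_apply, Finset.sum_apply]
    rw [qq_congr e2, qq_smul]
  simp_rw [h4] at h3
  have hcf : Continuous fun p => f p.proj * qq (∑ i, dfdg (d := d) (a i) (b i)) J p :=
    (hfs.continuous.comp hpr).mul hcont
  have h5 : 0 < ∫ p, f p.proj * qq (∑ i, dfdg (d := d) (a i) (b i)) J p ∂μ := by
    refine int_pos hD hμ.ae hcf (fun p hp => ?_) (p := p₀) ?_ (hfull p₀ hp₀)
    · by_cases hx : f p.proj = 0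
      · rw [hx, zero_mul]
      · have h6 := (hf (subset_tsupport _ hx)).1
        have h7 : 0 < qq (∑ i, dfdg (d := d) (a i) (b i)) J p := by
          by_contra hcon
          exact h6 ⟨p, ⟨hp, not_lt.1 hcon⟩, rfl⟩
        exact mul_nonneg f.nonneg h7.le
    · rw [hpz, f.eq_one, one_mul]
      exact hposz p₀ hp₀ hpz
  linarith

omit [T2Space X] in
/-- the form `ζ + w` is not positive on the carrier if it is nonnegative there -/
theorem semi_zero (hJ : IsAlmostComplex J) (h𝒩 : ∀ σ ∈ 𝒩, IsSmooth σ) (hζ : IsSmooth ζ)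
    (hD : IsCompact D) (hμ : Cr J 𝒩 ζ D μ)
    (hfull : ∀ p ∈ D, ∀ U : Set (TangentBundle (𝓡 d) X), IsOpen U → p ∈ U → μ U ≠ 0)
    {w : Form d X 2} (hw : w ∈ WS 𝒩) (hnn : ∀ p ∈ D, 0 ≤ qq (ζ + w) J p)
    {p : TangentBundle (𝓡 d) X} (hp : p ∈ D) : ¬ 0 < qq (ζ + w) J p := by
  intro hpos
  have hfin := hμ.fin
  have h1 := hμ.sum hJ h𝒩 hζ hD hw
  have h5 := int_pos hD hμ.ae (qq_cont (hζ.add (ws_smooth h𝒩 hw)) hJ) hnn hpos (hfull p hp)
  have := hμ.le
  linarith

omit [T2Space X] in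
/-- forms in the space of `𝒩` which are nonnegative on the carrier vanish on it -/
theorem rigid_zero (hJ : IsAlmostComplex J) (h𝒩 : ∀ σ ∈ 𝒩, IsSmooth σ) (hD : IsCompact D)
    (hμ : Cr J 𝒩 ζ D μ)
    (hfull : ∀ p ∈ D, ∀ U : Set (TangentBundle (𝓡 d) X), IsOpen U → p ∈ U → μ U ≠ 0)
    {w : Form d X 2} (hw : w ∈ WS 𝒩) (hnn : ∀ p ∈ D, 0 ≤ qq w J p)
    {p : TangentBundle (𝓡 d) X} (hp : p ∈ D) : qq w J p = 0 := by
  by_contra hne
  have hpos : 0 < qq w J p := lt_of_le_of_ne (hnn p hp) (Ne.symm hne)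
  have hfin := hμ.fin
  have h1 := hμ.orth w hw
  have h5 := int_pos hD hμ.ae (qq_cont (ws_smooth h𝒩 hw) hJ) hnn hpos (hfull p hp)
  linarith

end

end Pool.Agent.L7h49.TS
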